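import Mathlib

set_option autoImplicit false

open MeasureTheory

namespace Pool.Agent.E7c0

/-- The vertices of the rooted `d`-ary tree: words over `d` letters.  The root is the empty word
and the children of `v` are the words `i :: v`; so the descendants of `v` which are `k`
generations below `v` are the words `u ++ v` with `u` of length `k`. -/
abbrev Vertex (d : ℕ) : Type := List (Fin d)

/-- A configuration of open (`true`) and closed (`false`) edges.  Every edge is named by its lower
end vertex `w` and its type: `(w, false)` is the edge of length `1` that ends at `w` (it starts at
the parent of `w`), and `(w, true)` is the edge of length `k` that ends at `w` (it starts at the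
vertex `k` generations above `w`).  Values at names of edges which do not exist (because `w` is
too close to the root) are never used. -/
abbrev Conf (d : ℕ) : Type := Vertex d × Bool → Bool

/-- `Reach k ω w`: there is an oriented path of open edges from the root to `w`. -/
inductive Reach {d : ℕ} (k : ℕ) (ω : Conf d) : Vertex d → Prop
  | root : Reach k ω []
  | short (i : Fin d) (v : Vertex d) : Reach k ω v → ω (i :: v, false) = true →
      Reach k ω (i :: v)
  | long (u v : Vertex d) : u.length = k → Reach k ω v → ω (u ++ v, true) = true →
      Reach k ω (u ++ v)

/-- The law of a coin which shows `true` with probability `p`, for `0 ≤ p ≤ 1` (outside this range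
`p` is replaced by the nearest value in it). -/
noncomputable def bern (p : ℝ) : Measure Bool :=
  ENNReal.ofReal (max 0 (min p 1)) • Measure.dirac true +
    ENNReal.ofReal (1 - max 0 (min p 1)) • Measure.dirac false

instance bern_prob (p : ℝ) : IsProbabilityMeasure (bern p) := by
  constructor
  unfold bern
  rw [Measure.add_apply, Measure.smul_apply, Measure.smul_apply, measure_univ, measure_univ,
    smul_eq_mul, smul_eq_mul, mul_one, mul_one, ← ENNReal.ofReal_add (le_max_left _ _)]
  · simp
  · have h : max 0 (min p 1) ≤ 1 := max_le zero_le_one (min_le_right _ _)
    linarith

/-- The percolation measure: all edges are independent, the edges of length `1` are open with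
probability `p` and the edges of length `k` are open with probability `q`. -/
noncomputable def law (d : ℕ) (p q : ℝ) : Measure (Conf d) :=
  Measure.infinitePi (fun e : Vertex d × Bool => bern (if e.2 = true then q else p))

/-- `θ(p,q)`: the probability that the set of vertices reached from the root is infinite. -/
noncomputable def theta (d k : ℕ) (p q : ℝ) : ℝ :=
  (law d p q).real {ω | {w : Vertex d | Reach k ω w}.Infinite}

/-- The critical curve `q_c(p) = inf {q ∈ (0,1) : θ(p,q) > 0}`. -/
noncomputable def qc (d k : ℕ) (p : ℝ) : ℝ :=
  sInf {q : ℝ | 0 < q ∧ q < 1 ∧ 0 < theta d k p q}

end Pool.Agent.E7c0
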