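import Mathlib
import Pool.Agent.E7c0.Def

set_option autoImplicit false
set_option linter.unusedSectionVars false

open MeasureTheory

namespace Pool.Agent.E7c0

variable {ι : Type} 

/-- product of coins -/
noncomputable def Pm (r : ι → ℝ) : Measure (ι → Bool) :=
  Measure.infinitePi (fun i => bern (r i))

instance Pm_prob (r : ι → ℝ) : IsProbabilityMeasure (Pm r) := by
  unfold Pm
  infer_instance

/-- merging -/
def mrg (S : ι → Prop) [DecidablePred S] (σ τ : ι → Bool) : ι → Bool :=
  fun i => if S i then σ i else τ i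

lemma mrg_meas (S : ι → Prop) [DecidablePred S] :
    Measurable (fun x : (ι → Bool) × (ι → Bool) => mrg S x.1 x.2) := by
  refine measurable_pi_lambda _ fun i => ?_
  unfold mrg
  by_cases h : S i
  · simp only [h, if_true]
    exact (measurable_pi_apply i).comp measurable_fst
  · simp only [h, if_false]
    exact (measurable_pi_apply i).comp measurable_snd

lemma map_mrg (r : ι → ℝ) (S : ι → Prop) [DecidablePred S] :
    ((Pm r).prod (Pm r)).map (fun x => mrg S x.1 x.2) = Pm r := by
  classical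
  refine Measure.eq_infinitePi _ fun s t ht => ?_
  rw [Measure.map_apply (mrg_meas S) (MeasurableSet.pi s.countable_toSet fun i _ => ht i)]
  have e : (fun x : (ι → Bool) × (ι → Bool) => mrg S x.1 x.2) ⁻¹' ((s : Set ι).pi t) =
      (((s.filter S : Finset ι) : Set ι).pi t) ×ˢ
        (((s.filter (fun i => ¬ S i) : Finset ι) : Set ι).pi t) := by
    ext x
    simp only [Set.mem_preimage, Set.mem_pi, Set.mem_prod, Finset.mem_coe, Finset.mem_filter, mrg]
    constructor
    · intro h
      refine ⟨fun i hi => ?_, fun i hi => ?_⟩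
      · have := h i hi.1
        rwa [if_pos hi.2] at this
      · have := h i hi.1
        rwa [if_neg hi.2] at this
    · rintro ⟨h1, h2⟩ i hi
      by_cases hS : S i
      · rw [if_pos hS]
        exact h1 i ⟨hi, hS⟩
      · rw [if_neg hS]
        exact h2 i ⟨hi, hS⟩
  rw [e, Measure.prod_prod]
  unfold Pm
  rw [Measure.infinitePi_pi _ (fun i _ => ht i), Measure.infinitePi_pi _ (fun i _ => ht i)]
  exact Finset.prod_filter_mul_prod_filter_not s S (fun i => bern (r i) (t i))

/-- expectation -/
noncomputable def E (r : ι → ℝ) (f : (ι → Bool) → ℝ) : ℝ := ∫ ω, f ω ∂(Pm r)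

/-- bounded measurable functions -/
def Nice (f : (ι → Bool) → ℝ) : Prop := Measurable f ∧ ∃ C : ℝ, ∀ ω, |f ω| ≤ C

lemma Nice.integrable {f : (ι → Bool) → ℝ} (hf : Nice f) (r : ι → ℝ) : Integrable f (Pm r) := by
  obtain ⟨h1, C, hC⟩ := hf
  exact Integrable.of_bound h1.aestronglyMeasurable C (Filter.Eventually.of_forall hC)

lemma E_const (r : ι → ℝ) (c : ℝ) : E r (fun _ => c) = c := by
  unfold E
  simp

lemma E_merge (r : ι → ℝ) (S : ι → Prop) [DecidablePred S] {f : (ι → Bool) → ℝ} (hf : Nice f) :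
    E r f = E r (fun σ => E r (fun τ => f (mrg S σ τ))) := by
  unfold E
  obtain ⟨h1, C, hC⟩ := hf
  have e1 : ∫ ω, f ω ∂(Pm r) = ∫ ω, f ω ∂(((Pm r).prod (Pm r)).map (fun x => mrg S x.1 x.2)) := by
    rw [map_mrg]
  rw [e1, integral_map (mrg_meas S).aemeasurable h1.aestronglyMeasurable]
  rw [integral_prod]
  refine Integrable.of_bound (h1.comp (mrg_meas S)).aestronglyMeasurable C
    (Filter.Eventually.of_forall fun x => hC _)

lemma E_indep (r : ι → ℝ) (S : ι → Prop) [DecidablePred S] {X Y : (ι → Bool) → ℝ}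
    (hX : Nice X) (hY : Nice Y)
    (hX' : ∀ σ τ, X (mrg S σ τ) = X σ) (hY' : ∀ σ τ, Y (mrg S σ τ) = Y τ) :
    E r (fun ω => X ω * Y ω) = E r X * E r Y := by
  have hn : Nice (fun ω => X ω * Y ω) := by
    obtain ⟨h1, C, hC⟩ := hX
    obtain ⟨h2, C', hC'⟩ := hY
    refine ⟨h1.mul h2, C * C', fun ω => ?_⟩
    rw [abs_mul]
    exact mul_le_mul (hC ω) (hC' ω) (abs_nonneg _) (le_trans (abs_nonneg _) (hC ω))
  rw [E_merge r S hn]
  simp only [hX', hY']
  unfold E
  simp only [integral_const_mul]
  rw [integral_mul_const]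

lemma E_mono (r : ι → ℝ) {f g : (ι → Bool) → ℝ} (hf : Nice f) (hg : Nice g)
    (h : ∀ ω, f ω ≤ g ω) : E r f ≤ E r g :=
  integral_mono (hf.integrable r) (hg.integrable r) h

lemma E_add (r : ι → ℝ) {f g : (ι → Bool) → ℝ} (hf : Nice f) (hg : Nice g) :
    E r (fun ω => f ω + g ω) = E r f + E r g :=
  integral_add (hf.integrable r) (hg.integrable r)

lemma E_sub (r : ι → ℝ) {f g : (ι → Bool) → ℝ} (hf : Nice f) (hg : Nice g) :
    E r (fun ω => f ω - g ω) = E r f - E r g :=
  integral_sub (hf.integrable r) (hg.integrable r)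

lemma E_mul (r : ι → ℝ) (c : ℝ) (f : (ι → Bool) → ℝ) : E r (fun ω => c * f ω) = c * E r f := by
  unfold E
  exact integral_const_mul c f

/-- functions of finitely many discrete quantities -/
lemma nice_of_bool {α : Type} [Finite α] [MeasurableSpace α] [MeasurableSingletonClass α]
    {X : (ι → Bool) → α} (hX : Measurable X) (g : α → ℝ) : Nice (fun ω => g (X ω)) := by
  refine ⟨(Measurable.of_discrete).comp hX, ?_⟩
  have hfin : (Set.range (fun a => |g a|)).Finite := Set.finite_range _
  obtain ⟨C, hC⟩ := hfin.bddAbove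
  exact ⟨C, fun ω => hC ⟨X ω, rfl⟩⟩

lemma integral_bern {p : ℝ} (h0 : 0 ≤ p) (h1 : p ≤ 1) (g : Bool → ℝ) :
    ∫ b, g b ∂(bern p) = p * g true + (1 - p) * g false := by
  have e : max 0 (min p 1) = p := by rw [min_eq_left h1, max_eq_right h0]
  unfold bern
  rw [e, integral_add_measure, integral_smul_measure, integral_smul_measure, integral_dirac,
    integral_dirac, ENNReal.toReal_ofReal h0, ENNReal.toReal_ofReal (by linarith), smul_eq_mul,
    smul_eq_mul]
  · exact (Integrable.of_finite).smul_measure ENNReal.ofReal_ne_top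
  · exact (Integrable.of_finite).smul_measure ENNReal.ofReal_ne_top

lemma E_coord (r : ι → ℝ) (i : ι) (h0 : 0 ≤ r i) (h1 : r i ≤ 1) (g : Bool → ℝ) :
    E r (fun ω => g (ω i)) = r i * g true + (1 - r i) * g false := by
  rw [← integral_bern h0 h1 g]
  unfold E Pm
  rw [← Measure.infinitePi_map_eval (fun i => bern (r i)) i, integral_map]
  · exact (measurable_pi_apply i).aemeasurable
  · exact (Measurable.of_discrete).aestronglyMeasurable

end Pool.Agent.E7c0
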