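import Mathlib
import Pool.Agent.E7c0.Tool

set_option autoImplicit false
set_option linter.unusedSectionVars false

open MeasureTheory

namespace Pool.Agent.E7c0

section nice

variable {ι : Type}

lemma nice_const (c : ℝ) : Nice (fun _ : ι → Bool => c) := ⟨measurable_const, |c|, fun _ => le_rfl⟩

lemma Nice.mul {f g : (ι → Bool) → ℝ} (hf : Nice f) (hg : Nice g) : Nice (fun ω => f ω * g ω) := by
  obtain ⟨h1, C, hC⟩ := hf
  obtain ⟨h2, C', hC'⟩ := hg
  refine ⟨h1.mul h2, C * C', fun ω => ?_⟩
  rw [abs_mul]
  exact mul_le_mul (hC ω) (hC' ω) (abs_nonneg _) (le_trans (abs_nonneg _) (hC ω))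

lemma Nice.add {f g : (ι → Bool) → ℝ} (hf : Nice f) (hg : Nice g) : Nice (fun ω => f ω + g ω) := by
  obtain ⟨h1, C, hC⟩ := hf
  obtain ⟨h2, C', hC'⟩ := hg
  exact ⟨h1.add h2, C + C', fun ω => le_trans (abs_add_le _ _) (add_le_add (hC ω) (hC' ω))⟩

lemma Nice.sub {f g : (ι → Bool) → ℝ} (hf : Nice f) (hg : Nice g) : Nice (fun ω => f ω - g ω) := by
  obtain ⟨h1, C, hC⟩ := hf
  obtain ⟨h2, C', hC'⟩ := hg
  exact ⟨h1.sub h2, C + C', fun ω => le_trans (abs_sub _ _) (add_le_add (hC ω) (hC' ω))⟩

lemma nice_prod {κ : Type} (s : Finset κ) (f : κ → (ι → Bool) → ℝ) (hf : ∀ a, Nice (f a)) :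
    Nice (fun ω => ∏ a ∈ s, f a ω) := by
  classical
  induction s using Finset.induction_on with
  | empty =>
    simp only [Finset.prod_empty]
    exact nice_const 1
  | insert a s ha ih =>
    simp only [Finset.prod_insert ha]
    exact (hf a).mul ih

lemma nice_two (e1 e2 : ι) (G : Bool → Bool → ℝ) : Nice (fun ω : ι → Bool => G (ω e1) (ω e2)) :=
  nice_of_bool (α := Bool × Bool) (X := fun ω : ι → Bool => (ω e1, ω e2))
    ((measurable_pi_apply e1).prodMk (measurable_pi_apply e2)) (fun x => G x.1 x.2)

lemma E_two (r : ι → ℝ) (h0 : ∀ i, 0 ≤ r i) (h1 : ∀ i, r i ≤ 1) (e1 e2 : ι) (he : e1 ≠ e2)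
    (G : Bool → Bool → ℝ) :
    E r (fun ω => G (ω e1) (ω e2)) =
      r e1 * (r e2 * G true true + (1 - r e2) * G true false) +
      (1 - r e1) * (r e2 * G false true + (1 - r e2) * G false false) := by
  classical
  rw [E_merge r (fun i => i = e1) (nice_two e1 e2 G)]
  have e : (fun σ : ι → Bool => E r (fun τ => G (mrg (fun i => i = e1) σ τ e1)
      (mrg (fun i => i = e1) σ τ e2))) =
      fun σ => (fun b => r e2 * G b true + (1 - r e2) * G b false) (σ e1) := by
    funext σ
    have e' : (fun τ : ι → Bool => G (mrg (fun i => i = e1) σ τ e1)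
        (mrg (fun i => i = e1) σ τ e2)) = fun τ => (fun b => G (σ e1) b) (τ e2) := by
      funext τ
      unfold mrg
      rw [if_pos rfl, if_neg he.symm]
    rw [e', E_coord r e2 (h0 e2) (h1 e2)]
  rw [e]
  exact E_coord r e1 (h0 e1) (h1 e1) (fun b => r e2 * G b true + (1 - r e2) * G b false)

end nice

variable {d : ℕ}

/-- `R k ω v i`: the ancestor of `v` which is `i` generations above `v` exists and is reached. -/
def R (k : ℕ) (ω : Conf d) : List (Fin d) → ℕ → Bool
  | [], i => decide (i = 0)
  | (a :: v), 0 => (R k ω v 0 && ω (a :: v, false)) || (R k ω v (k - 1) && ω (a :: v, true))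
  | (_ :: v), (i + 1) => R k ω v i

lemma R_drop (k : ℕ) (ω : Conf d) (v : List (Fin d)) (i : ℕ) (hi : i ≤ v.length) :
    R k ω v i = R k ω (v.drop i) 0 := by
  induction v generalizing i with
  | nil =>
    have : i = 0 := by simpa using hi
    subst this
    rfl
  | cons a v ih =>
    cases i with
    | zero => rfl
    | succ i =>
      show R k ω v i = R k ω (v.drop i) 0
      exact ih i (by simpa using hi)

lemma R_big (k : ℕ) (ω : Conf d) (v : List (Fin d)) (i : ℕ) (hi : v.length < i) :
    R k ω v i = false := by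
  induction v generalizing i with
  | nil =>
    have : i ≠ 0 := by
      rintro rfl
      simp at hi
    show decide (i = 0) = false
    simp [this]
  | cons a v ih =>
    cases i with
    | zero => simp at hi
    | succ i =>
      show R k ω v i = false
      exact ih i (by simpa using hi)

lemma R_of_reach {k : ℕ} (hk : 1 ≤ k) {ω : Conf d} {v : List (Fin d)} (h : Reach k ω v) :
    R k ω v 0 = true := by
  induction h with
  | root => rfl
  | short i v _ ho ih =>
    show ((R k ω v 0 && ω (i :: v, false)) || (R k ω v (k - 1) && ω (i :: v, true))) = true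
    rw [ih, ho]
    rfl
  | long u v hu _ ho ih =>
    cases u with
    | nil =>
      simp at hu
      omega
    | cons a u =>
      have hu' : u.length = k - 1 := by
        simp at hu
        omega
      have ho' : ω (a :: (u ++ v), true) = true := ho
      show ((R k ω (u ++ v) 0 && ω (a :: (u ++ v), false)) ||
        (R k ω (u ++ v) (k - 1) && ω (a :: (u ++ v), true))) = true
      have h1 : R k ω (u ++ v) (k - 1) = true := by
        rw [R_drop k ω (u ++ v) (k - 1) (by simp; omega), ← hu', List.drop_left]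
        exact ih
      rw [h1, ho']
      simp

lemma reach_of_R {k : ℕ} (hk : 1 ≤ k) {ω : Conf d} (N : ℕ) :
    ∀ v : List (Fin d), v.length ≤ N → R k ω v 0 = true → Reach k ω v := by
  induction N with
  | zero =>
    intro v hv _
    have : v = [] := by
      cases v with
      | nil => rfl
      | cons a v => simp at hv
    rw [this]
    exact Reach.root
  | succ N ih =>
    intro v hv h
    cases v with
    | nil => exact Reach.root
    | cons a v =>
      have hv' : v.length ≤ N := by simpa using hv
      have h' : ((R k ω v 0 && ω (a :: v, false)) ||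
        (R k ω v (k - 1) && ω (a :: v, true))) = true := h
      rw [Bool.or_eq_true, Bool.and_eq_true, Bool.and_eq_true] at h'
      rcases h' with ⟨h1, h2⟩ | ⟨h1, h2⟩
      · exact Reach.short a v (ih v hv' h1) h2
      · have hlen : k - 1 ≤ v.length := by
          by_contra hc
          push Not at hc
          rw [R_big k ω v (k - 1) hc] at h1
          simp at h1
        rw [R_drop k ω v (k - 1) hlen] at h1
        have h3 : Reach k ω (v.drop (k - 1)) := by
          refine ih _ ?_ h1
          rw [List.length_drop]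
          omega
        have h4 : (a :: v) = (a :: v).take k ++ v.drop (k - 1) := by
          have : v.drop (k - 1) = (a :: v).drop k := by
            obtain ⟨j, rfl⟩ : ∃ j, k = j + 1 := ⟨k - 1, by omega⟩
            rfl
          rw [this, List.take_append_drop]
        rw [h4]
        refine Reach.long _ _ ?_ h3 ?_
        · rw [List.length_take]
          simp
          omega
        · rw [← h4]
          exact h2

lemma R_zero_iff {k : ℕ} (hk : 1 ≤ k) {ω : Conf d} {v : List (Fin d)} :
    R k ω v 0 = true ↔ Reach k ω v :=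
  ⟨reach_of_R hk v.length v le_rfl, R_of_reach hk⟩

lemma R_meas (k : ℕ) (v : List (Fin d)) (i : ℕ) : Measurable (fun ω : Conf d => R k ω v i) := by
  induction v generalizing i with
  | nil => exact measurable_const
  | cons a v ih =>
    cases i with
    | zero =>
      have h : Measurable (fun ω : Conf d =>
          ((R k ω v 0, ω (a :: v, false)), (R k ω v (k - 1), ω (a :: v, true)))) :=
        (((ih 0).prodMk (measurable_pi_apply _))).prodMk
          (((ih (k - 1)).prodMk (measurable_pi_apply _)))
      exact (Measurable.of_discrete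
        (f := fun x : (Bool × Bool) × (Bool × Bool) => (x.1.1 && x.1.2) || (x.2.1 && x.2.2))).comp h
    | succ i => exact ih i

lemma R_mrg (k : ℕ) (S : Vertex d × Bool → Prop) [DecidablePred S] (σ τ : Conf d) (m : ℕ)
    (hS : ∀ w b, w.length ≤ m → S (w, b)) (v : List (Fin d)) (hv : v.length ≤ m) (i : ℕ) :
    R k (mrg S σ τ) v i = R k σ v i := by
  induction v generalizing i with
  | nil => rfl
  | cons a v ih =>
    have hv' : v.length ≤ m := by
      simp at hv
      omega
    cases i with
    | zero =>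
      show ((R k (mrg S σ τ) v 0 && mrg S σ τ (a :: v, false)) ||
        (R k (mrg S σ τ) v (k - 1) && mrg S σ τ (a :: v, true))) =
        ((R k σ v 0 && σ (a :: v, false)) || (R k σ v (k - 1) && σ (a :: v, true)))
      rw [ih hv', ih hv']
      unfold mrg
      rw [if_pos (hS _ _ hv), if_pos (hS _ _ hv)]
    | succ i => exact ih hv' i

/-- the vertices of generation `m` -/
def lev (d : ℕ) : ℕ → Finset (List (Fin d))
  | 0 => {[]}
  | (m + 1) => (Finset.univ ×ˢ lev d m).map
      ⟨fun x : Fin d × List (Fin d) => x.1 :: x.2, fun x y h => by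
        have h' := List.cons.inj h
        exact Prod.ext h'.1 h'.2⟩

lemma mem_lev (m : ℕ) (w : List (Fin d)) : w ∈ lev d m ↔ w.length = m := by
  induction m generalizing w with
  | zero =>
    show w ∈ ({[]} : Finset (List (Fin d))) ↔ _
    simp
  | succ m ih =>
    unfold lev
    rw [Finset.mem_map]
    constructor
    · rintro ⟨⟨a, v⟩, h1, rfl⟩
      rw [Finset.mem_product] at h1
      have := (ih v).mp h1.2
      simp [this]
    · intro h
      cases w with
      | nil => simp at h
      | cons a v =>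
        refine ⟨(a, v), ?_, rfl⟩
        rw [Finset.mem_product]
        exact ⟨Finset.mem_univ _, (ih v).mpr (by simpa using h)⟩

lemma prod_lev_succ (m : ℕ) (F : List (Fin d) → ℝ) :
    ∏ w ∈ lev d (m + 1), F w = ∏ v ∈ lev d m, ∏ a : Fin d, F (a :: v) := by
  show ∏ w ∈ ((Finset.univ ×ˢ lev d m).map _), F w = _
  rw [Finset.prod_map, Finset.prod_product_right]
  rfl

lemma sum_lev_succ (m : ℕ) (F : List (Fin d) → ℝ) :
    ∑ w ∈ lev d (m + 1), F w = ∑ v ∈ lev d m, ∑ a : Fin d, F (a :: v) := by
  show ∑ w ∈ ((Finset.univ ×ˢ lev d m).map _), F w = _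
  rw [Finset.sum_map, Finset.sum_product_right]
  rfl

lemma card_lev (m : ℕ) : (lev d m).card = d ^ m := by
  induction m with
  | zero => rfl
  | succ m ih =>
    show ((Finset.univ ×ˢ lev d m).map _).card = _
    rw [Finset.card_map, Finset.card_product, ih, Finset.card_univ, Fintype.card_fin, pow_succ']

/-- the state at a vertex -/
def st (k : ℕ) (ω : Conf d) (v : List (Fin d)) : Fin k → Bool := fun i => R k ω v i

/-- the state of a child -/
def step {k : ℕ} (s : Fin k → Bool) (b : Bool) : Fin k → Bool :=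
  fun i => if h : i.val = 0 then b else s ⟨i.val - 1, by omega⟩

/-- the probabilities -/
def rr (d : ℕ) (p q : ℝ) : Vertex d × Bool → ℝ := fun e => if e.2 = true then q else p

lemma law_eq (p q : ℝ) : law d p q = Pm (rr d p q) := rfl

lemma st_cons {k : ℕ} (hk : 2 ≤ k) (ω : Conf d) (a : Fin d) (v : List (Fin d)) :
    st k ω (a :: v) = step (st k ω v)
      ((st k ω v ⟨0, by omega⟩ && ω (a :: v, false)) ||
        (st k ω v ⟨k - 1, by omega⟩ && ω (a :: v, true))) := by
  funext i
  obtain ⟨i, hi⟩ := i
  unfold step st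
  cases i with
  | zero => rfl
  | succ i => rfl

lemma st_meas (k : ℕ) (v : List (Fin d)) : Measurable (fun ω : Conf d => st k ω v) :=
  measurable_pi_lambda _ fun i => R_meas k v i

lemma nice_st (k : ℕ) (v : List (Fin d)) (h : (Fin k → Bool) → ℝ) :
    Nice (fun ω : Conf d => h (st k ω v)) := nice_of_bool (st_meas k v) h

/-- probability that a child is reached -/
noncomputable def pb {k : ℕ} (hk : 2 ≤ k) (p q : ℝ) (s : Fin k → Bool) : ℝ :=
  1 - (1 - (if s ⟨0, by omega⟩ = true then p else 0)) *
    (1 - (if s ⟨k - 1, by omega⟩ = true then q else 0))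

/-- one generation -/
noncomputable def U {k : ℕ} (hk : 2 ≤ k) (d : ℕ) (p q : ℝ) (h : (Fin k → Bool) → ℝ)
    (s : Fin k → Bool) : ℝ :=
  (pb hk p q s * h (step s true) + (1 - pb hk p q s) * h (step s false)) ^ d

lemma rr_nonneg {p q : ℝ} (hp : 0 ≤ p) (hq : 0 ≤ q) (e : Vertex d × Bool) : 0 ≤ rr d p q e := by
  unfold rr
  split_ifs <;> assumption

lemma rr_le_one {p q : ℝ} (hp : p ≤ 1) (hq : q ≤ 1) (e : Vertex d × Bool) : rr d p q e ≤ 1 := by
  unfold rr
  split_ifs <;> assumption

lemma E_blocks {p q : ℝ} (V : Finset (Vertex d)) (φ : Vertex d → Bool → Bool → ℝ) :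
    E (rr d p q) (fun τ => ∏ w ∈ V, φ w (τ (w, false)) (τ (w, true))) =
      ∏ w ∈ V, E (rr d p q) (fun τ => φ w (τ (w, false)) (τ (w, true))) := by
  induction V using Finset.induction_on with
  | empty =>
    simp only [Finset.prod_empty]
    exact E_const _ 1
  | insert w V hw ih =>
    simp only [Finset.prod_insert hw]
    rw [E_indep (rr d p q) (fun e => e.1 = w) (nice_two _ _ _)
      (nice_prod V _ fun a => nice_two _ _ _), ih]
    · intro σ τ
      unfold mrg
      rw [if_pos rfl, if_pos rfl]
    · intro σ τ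
      refine Finset.prod_congr rfl fun x hx => ?_
      have hxw : x ≠ w := by
        rintro rfl
        exact hw hx
      unfold mrg
      rw [if_neg hxw, if_neg hxw]

lemma E_child {k : ℕ} (hk : 2 ≤ k) {p q : ℝ} (hp0 : 0 ≤ p) (hp1 : p ≤ 1) (hq0 : 0 ≤ q)
    (hq1 : q ≤ 1) (h : (Fin k → Bool) → ℝ) (s : Fin k → Bool) (w : Vertex d) :
    E (rr d p q) (fun τ => h (step s ((s ⟨0, by omega⟩ && τ (w, false)) ||
      (s ⟨k - 1, by omega⟩ && τ (w, true))))) =
      pb hk p q s * h (step s true) + (1 - pb hk p q s) * h (step s false) := by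
  rw [E_two (rr d p q) (rr_nonneg hp0 hq0) (rr_le_one hp1 hq1) (w, false) (w, true) (by simp)
    (fun x y => h (step s ((s ⟨0, by omega⟩ && x) || (s ⟨k - 1, by omega⟩ && y))))]
  have e1 : rr d p q (w, false) = p := by simp [rr]
  have e2 : rr d p q (w, true) = q := by simp [rr]
  rw [e1, e2]
  unfold pb
  cases h0 : s ⟨0, by omega⟩ <;> cases h1 : s ⟨k - 1, by omega⟩ <;> simp <;> ring

/-- peeling off one generation -/
lemma peel {k : ℕ} (hk : 2 ≤ k) {p q : ℝ} (hp0 : 0 ≤ p) (hp1 : p ≤ 1) (hq0 : 0 ≤ q)
    (hq1 : q ≤ 1) (h : (Fin k → Bool) → ℝ) (m : ℕ) :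
    E (rr d p q) (fun ω => ∏ w ∈ lev d (m + 1), h (st k ω w)) =
      E (rr d p q) (fun ω => ∏ v ∈ lev d m, U hk d p q h (st k ω v)) := by
  rw [E_merge (rr d p q) (fun e => e.1.length ≤ m) (nice_prod _ _ fun w => nice_st k w h)]
  congr 1
  funext σ
  have e1 : (fun τ : Conf d => ∏ w ∈ lev d (m + 1),
      h (st k (mrg (fun e => e.1.length ≤ m) σ τ) w)) =
      fun τ => ∏ w ∈ lev d (m + 1), (fun (w : Vertex d) (x y : Bool) =>
        h (step (st k σ w.tail) ((st k σ w.tail ⟨0, by omega⟩ && x) ||
          (st k σ w.tail ⟨k - 1, by omega⟩ && y)))) w (τ (w, false)) (τ (w, true)) := by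
    funext τ
    refine Finset.prod_congr rfl fun w hw => ?_
    have hlen := (mem_lev _ _).mp hw
    cases w with
    | nil => simp at hlen
    | cons a v =>
      have hv : v.length = m := by simpa using hlen
      have hs : st k (mrg (fun e : Vertex d × Bool => e.1.length ≤ m) σ τ) v = st k σ v := by
        funext i
        exact R_mrg k _ σ τ m (fun w b hwb => hwb) v hv.le i
      have hn : ¬ (a :: v).length ≤ m := by
        simp [hv]
      rw [st_cons hk, hs]
      show h (step (st k σ v) ((st k σ v ⟨0, by omega⟩ &&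
        mrg (fun e : Vertex d × Bool => e.1.length ≤ m) σ τ (a :: v, false)) ||
        (st k σ v ⟨k - 1, by omega⟩ &&
        mrg (fun e : Vertex d × Bool => e.1.length ≤ m) σ τ (a :: v, true)))) = _
      have m1 : ∀ b, mrg (fun e : Vertex d × Bool => e.1.length ≤ m) σ τ (a :: v, b) =
          τ (a :: v, b) := by
        intro b
        unfold mrg
        exact if_neg hn
      rw [m1, m1]
      rfl
  rw [e1]
  refine (E_blocks (lev d (m + 1)) (fun (w : Vertex d) (x y : Bool) =>
        h (step (st k σ w.tail) ((st k σ w.tail ⟨0, by omega⟩ && x) ||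
          (st k σ w.tail ⟨k - 1, by omega⟩ && y))))).trans ?_
  rw [prod_lev_succ]
  refine Finset.prod_congr rfl fun v hv => ?_
  have e2 : ∀ a : Fin d, E (rr d p q) (fun τ => (fun (w : Vertex d) (x y : Bool) =>
        h (step (st k σ w.tail) ((st k σ w.tail ⟨0, by omega⟩ && x) ||
          (st k σ w.tail ⟨k - 1, by omega⟩ && y)))) (a :: v) (τ (a :: v, false))
          (τ (a :: v, true))) =
      pb hk p q (st k σ v) * h (step (st k σ v) true) +
        (1 - pb hk p q (st k σ v)) * h (step (st k σ v) false) :=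
    fun a => E_child hk hp0 hp1 hq0 hq1 h (st k σ v) (a :: v)
  rw [Finset.prod_congr rfl (fun a _ => e2 a), Finset.prod_const, Finset.card_univ,
    Fintype.card_fin]
  rfl

lemma peel_all {k : ℕ} (hk : 2 ≤ k) {p q : ℝ} (hp0 : 0 ≤ p) (hp1 : p ≤ 1) (hq0 : 0 ≤ q)
    (hq1 : q ≤ 1) (m : ℕ) (h : (Fin k → Bool) → ℝ) :
    E (rr d p q) (fun ω => ∏ w ∈ lev d m, h (st k ω w)) =
      ((U hk d p q)^[m] h) (fun i => decide (i.val = 0)) := by
  induction m generalizing h with
  | zero =>
    have e : (fun ω : Conf d => ∏ w ∈ lev d 0, h (st k ω w)) =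
        fun _ => h (fun i => decide (i.val = 0)) := by
      funext ω
      show ∏ w ∈ ({[]} : Finset (List (Fin d))), h (st k ω w) = _
      rw [Finset.prod_singleton]
      rfl
    rw [e, E_const]
    rfl
  | succ m ih =>
    rw [peel hk hp0 hp1 hq0 hq1, ih (U hk d p q h), Function.iterate_succ_apply]

end Pool.Agent.E7c0
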