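import Mathlib
import Pool.Agent.E7c0.Tree

set_option autoImplicit false
set_option linter.unusedSectionVars false
set_option linter.unusedVariables false

open MeasureTheory

namespace Pool.Agent.E7c0

/-- the coordinates of a state as real numbers -/
noncomputable def xs {k : ℕ} (s : Fin k → Bool) (i : ℕ) : ℝ :=
  if h : i < k then (if s ⟨i, h⟩ = true then 1 else 0) else 0

lemma xs_nonneg {k : ℕ} (s : Fin k → Bool) (i : ℕ) : 0 ≤ xs s i := by
  unfold xs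
  split_ifs <;> norm_num

lemma xs_le_one {k : ℕ} (s : Fin k → Bool) (i : ℕ) : xs s i ≤ 1 := by
  unfold xs
  split_ifs <;> norm_num

lemma xs_sq {k : ℕ} (s : Fin k → Bool) (i : ℕ) : xs s i * xs s i = xs s i := by
  unfold xs
  split_ifs <;> norm_num

lemma xs_step_zero {k : ℕ} (hk : 2 ≤ k) (s : Fin k → Bool) (b : Bool) :
    xs (step s b) 0 = if b = true then 1 else 0 := by
  unfold xs step
  rw [dif_pos (by omega : 0 < k)]
  simp

lemma xs_step_succ {k : ℕ} (s : Fin k → Bool) (b : Bool) (i : ℕ) (hi : i + 1 < k) :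
    xs (step s b) (i + 1) = xs s i := by
  unfold xs step
  rw [dif_pos hi, dif_pos (by omega : i < k)]
  simp

/-- weighted sums -/
noncomputable def Am (μ : ℝ) (n : ℕ) (x : ℕ → ℝ) : ℝ := ∑ i ∈ Finset.range n, μ ^ i * x i

noncomputable def Bm (μ : ℝ) (n : ℕ) (x : ℕ → ℝ) : ℝ :=
  ∑ i ∈ Finset.range n, (μ ^ i) ^ 2 * x i

lemma Am_succ (μ : ℝ) (n : ℕ) (x : ℕ → ℝ) : Am μ (n + 1) x = Am μ n x + μ ^ n * x n := by
  unfold Am
  rw [Finset.sum_range_succ]

lemma Bm_succ (μ : ℝ) (n : ℕ) (x : ℕ → ℝ) : Bm μ (n + 1) x = Bm μ n x + (μ ^ n) ^ 2 * x n := by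
  unfold Bm
  rw [Finset.sum_range_succ]

lemma Am_shift (μ : ℝ) (n : ℕ) (x y : ℕ → ℝ) (h : ∀ i, i < n → y (i + 1) = x i) :
    Am μ (n + 1) y = y 0 + μ * Am μ n x := by
  unfold Am
  rw [Finset.sum_range_succ', Finset.mul_sum, add_comm]
  congr 1
  · simp
  · refine Finset.sum_congr rfl fun i hi => ?_
    rw [h i (Finset.mem_range.mp hi)]
    ring

lemma Bm_shift (μ : ℝ) (n : ℕ) (x y : ℕ → ℝ) (h : ∀ i, i < n → y (i + 1) = x i) :
    Bm μ (n + 1) y = y 0 + μ ^ 2 * Bm μ n x := by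
  unfold Bm
  rw [Finset.sum_range_succ', Finset.mul_sum, add_comm]
  congr 1
  · simp
  · refine Finset.sum_congr rfl fun i hi => ?_
    rw [h i (Finset.mem_range.mp hi)]
    ring

lemma Am_nonneg {μ : ℝ} (hμ : 0 ≤ μ) (n : ℕ) {x : ℕ → ℝ} (hx : ∀ i, 0 ≤ x i) : 0 ≤ Am μ n x :=
  Finset.sum_nonneg fun i _ => mul_nonneg (pow_nonneg hμ i) (hx i)

lemma Bm_nonneg {μ : ℝ} (n : ℕ) {x : ℕ → ℝ} (hx : ∀ i, 0 ≤ x i) : 0 ≤ Bm μ n x :=
  Finset.sum_nonneg fun i _ => mul_nonneg (sq_nonneg _) (hx i)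

lemma Am_le {μ : ℝ} (hμ : 0 ≤ μ) (hμ' : μ ≤ 3 / 4) (n : ℕ) {x : ℕ → ℝ} (hx : ∀ i, x i ≤ 1) :
    Am μ n x ≤ 4 := by
  have h1 : Am μ n x ≤ ∑ i ∈ Finset.range n, μ ^ i := by
    refine Finset.sum_le_sum fun i _ => ?_
    have := mul_le_mul_of_nonneg_left (hx i) (pow_nonneg hμ i)
    linarith
  have h2 : (∑ i ∈ Finset.range n, μ ^ i) * (1 - μ) = 1 - μ ^ n := by
    have := geom_sum_mul_neg μ n
    exact this
  have h3 : 0 ≤ μ ^ n := pow_nonneg hμ n
  have h4 : 0 ≤ ∑ i ∈ Finset.range n, μ ^ i := Finset.sum_nonneg fun i _ => pow_nonneg hμ i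
  nlinarith

lemma Q_nonneg {μ : ℝ} (hμ : 0 ≤ μ) (n : ℕ) {x : ℕ → ℝ} (hx : ∀ i, 0 ≤ x i)
    (hx2 : ∀ i, x i * x i = x i) : 0 ≤ Am μ n x ^ 2 - Bm μ n x := by
  induction n with
  | zero =>
    unfold Am Bm
    simp
  | succ n ih =>
    rw [Am_succ, Bm_succ]
    have h1 := Am_nonneg hμ n hx
    have h2 : 0 ≤ μ ^ n * x n := mul_nonneg (pow_nonneg hμ n) (hx n)
    have h3 := hx2 n
    have e : (Am μ n x + μ ^ n * x n) ^ 2 - (Bm μ n x + (μ ^ n) ^ 2 * x n) =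
        (Am μ n x ^ 2 - Bm μ n x) + 2 * (Am μ n x * (μ ^ n * x n)) := by
      have : (μ ^ n * x n) ^ 2 = (μ ^ n) ^ 2 * x n := by
        rw [mul_pow, sq (x n), h3]
      nlinarith
    rw [e]
    have := mul_nonneg h1 h2
    linarith

/-- the test function -/
noncomputable def tf {k : ℕ} (p μ : ℝ) (s : Fin k → Bool) : ℝ :=
  ((p / μ) * xs s 0 + (1 - p / μ) * Am μ k (xs s)) -
    4 * p * (Am μ k (xs s) ^ 2 - Bm μ k (xs s))

lemma pb_eq {k : ℕ} (hk : 2 ≤ k) (p q : ℝ) (s : Fin k → Bool) :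
    pb hk p q s = p * xs s 0 + q * xs s (k - 1) - p * q * (xs s 0 * xs s (k - 1)) := by
  unfold pb xs
  rw [dif_pos (by omega : 0 < k), dif_pos (by omega : k - 1 < k)]
  cases s ⟨0, by omega⟩ <;> cases s ⟨k - 1, by omega⟩ <;> simp <;> ring

/-- the purely real inequality -/
lemma real_ineq (p μ M a c x y : ℝ) (hp : 0 ≤ p) (hp' : p ≤ 1 / 32) (hμ : 0 < μ)
    (hμ' : μ ≤ 3 / 4) (hpμ : p ≤ μ / 2) (hM : 0 ≤ M) (hx0 : 0 ≤ x) (hx1 : x ≤ 1) (hy0 : 0 ≤ y)
    (hxa : x ≤ a) (ha : a ≤ 4) (hc : 0 ≤ c) (q : ℝ) (hq : q = (μ - p) * M) (π : ℝ)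
    (hπ : π = p * x + q * y - p * q * (x * y)) :
    (μ * (1 - 32 * p ^ 2)) * (((p / μ) * x + (1 - p / μ) * (a + M * y)) -
      4 * p * (c + 2 * (a * (M * y)))) ≤
    π + (1 - p / μ) * (μ * a) - 4 * p * (2 * π * (μ * a) + μ ^ 2 * c) := by
  have ha0 : 0 ≤ a := le_trans hx0 hxa
  have hρ : p / μ * μ = p := div_mul_cancel₀ p hμ.ne'
  set ρ := p / μ with hρdef
  have hρ0 : 0 ≤ ρ := div_nonneg hp hμ.le
  have hρ1 : ρ ≤ 1 / 2 := by
    rw [hρdef, div_le_iff₀ hμ]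
    linarith
  have hq0 : 0 ≤ q := by
    rw [hq]
    exact mul_nonneg (by linarith) hM
  have hp2 : 32 * p ^ 2 ≤ 1 / 32 := by nlinarith
  have hp20 : 0 ≤ p ^ 2 := sq_nonneg p
  -- the pieces
  have hxy : 0 ≤ x * y := mul_nonneg hx0 hy0
  have t1 : x ≤ ρ * x + (1 - ρ) * (a + M * y) := by
    have h1 : 0 ≤ (1 - ρ) * (a - x) := mul_nonneg (by linarith) (by linarith)
    have h2 : 0 ≤ (1 - ρ) * (M * y) := mul_nonneg (by linarith) (mul_nonneg hM hy0)
    nlinarith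
  have t2 : 0 ≤ 32 * p ^ 2 * μ * ((ρ * x + (1 - ρ) * (a + M * y)) - x) :=
    mul_nonneg (by positivity) (by linarith)
  have t3 : 0 ≤ 4 * p * μ * c * ((1 - 32 * p ^ 2) - μ) :=
    mul_nonneg (by positivity) (by linarith)
  have t4 : 0 ≤ 8 * p ^ 2 * μ * x * (4 - a) :=
    mul_nonneg (by positivity) (by linarith)
  have t5 : 0 ≤ p * M * y * (8 * μ * a * ((1 - 32 * p ^ 2) - (μ - p)) - (μ - p) * x) := by
    refine mul_nonneg (by positivity) ?_
    have h1 : 1 / 8 ≤ (1 - 32 * p ^ 2) - (μ - p) := by linarith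
    have h2 : μ * a ≤ 8 * μ * a * ((1 - 32 * p ^ 2) - (μ - p)) := by
      have : 0 ≤ μ * a := mul_nonneg hμ.le ha0
      nlinarith
    have h3 : (μ - p) * x ≤ μ * a := by
      have h4 : (μ - p) * x ≤ μ * x := mul_le_mul_of_nonneg_right (by linarith) hx0
      have h5 : μ * x ≤ μ * a := mul_le_mul_of_nonneg_left hxa hμ.le
      linarith
    linarith
  have t6 : 0 ≤ 8 * p * (μ * a) * (p * q * (x * y)) := by positivity
  have key : π + (1 - ρ) * (μ * a) - 4 * p * (2 * π * (μ * a) + μ ^ 2 * c) -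
      (μ * (1 - 32 * p ^ 2)) * ((ρ * x + (1 - ρ) * (a + M * y)) -
      4 * p * (c + 2 * (a * (M * y)))) =
      32 * p ^ 2 * μ * ((ρ * x + (1 - ρ) * (a + M * y)) - x) +
      4 * p * μ * c * ((1 - 32 * p ^ 2) - μ) + 8 * p ^ 2 * μ * x * (4 - a) +
      p * M * y * (8 * μ * a * ((1 - 32 * p ^ 2) - (μ - p)) - (μ - p) * x) +
      8 * p * (μ * a) * (p * q * (x * y)) +
      ((p - ρ * μ) * (x - M * y)) := by
    rw [hπ, hq]
    ring
  have t7 : (p - ρ * μ) * (x - M * y) = 0 := by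
    rw [hρ]
    ring
  rw [t7] at key
  linarith

/-- the test function grows at rate `μ (1 - 32 p²)` -/
lemma tf_ineq {k : ℕ} (hk : 2 ≤ k) {p μ : ℝ} (hp : 0 ≤ p) (hp' : p ≤ 1 / 32) (hμ : 0 < μ)
    (hμ' : μ ≤ 3 / 4) (hpμ : p ≤ μ / 2) (s : Fin k → Bool) :
    (μ * (1 - 32 * p ^ 2)) * tf p μ s ≤
      pb hk p ((μ - p) * μ ^ (k - 1)) s * tf p μ (step s true) +
      (1 - pb hk p ((μ - p) * μ ^ (k - 1)) s) * tf p μ (step s false) := by
  obtain ⟨n, rfl⟩ : ∃ n, k = n + 2 := ⟨k - 2, by omega⟩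
  have hk1 : n + 2 - 1 = n + 1 := rfl
  have hstep : ∀ b, tf p μ (step s b) = (if b = true then 1 else 0) +
      (1 - p / μ) * (μ * Am μ (n + 1) (xs s)) - 4 * p * (2 * (if b = true then 1 else 0) *
      (μ * Am μ (n + 1) (xs s)) + μ ^ 2 * (Am μ (n + 1) (xs s) ^ 2 - Bm μ (n + 1) (xs s))) := by
    intro b
    unfold tf
    have e1 : Am μ (n + 2) (xs (step s b)) = xs (step s b) 0 + μ * Am μ (n + 1) (xs s) :=
      Am_shift μ (n + 1) (xs s) (xs (step s b)) fun i hi => xs_step_succ s b i (by omega)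
    have e2 : Bm μ (n + 2) (xs (step s b)) = xs (step s b) 0 + μ ^ 2 * Bm μ (n + 1) (xs s) :=
      Bm_shift μ (n + 1) (xs s) (xs (step s b)) fun i hi => xs_step_succ s b i (by omega)
    rw [e1, e2, xs_step_zero hk]
    cases b
    · simp only [Bool.false_eq_true, if_false]
      ring
    · simp only [if_true]
      ring
  rw [hstep true, hstep false, pb_eq hk, hk1]
  simp only [if_true, Bool.false_eq_true, if_false]
  have hx0 := xs_nonneg s
  have hx1 := xs_le_one s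
  have hx2 := xs_sq s
  have hA0 := Am_nonneg hμ.le (n + 1) hx0
  have hxa : xs s 0 ≤ Am μ (n + 1) (xs s) := by
    unfold Am
    rw [Finset.sum_range_succ']
    have : 0 ≤ ∑ i ∈ Finset.range n, μ ^ (i + 1) * xs s (i + 1) :=
      Finset.sum_nonneg fun i _ => mul_nonneg (pow_nonneg hμ.le _) (hx0 _)
    simp only [pow_zero, one_mul]
    linarith
  have h := real_ineq p μ (μ ^ (n + 1)) (Am μ (n + 1) (xs s))
    (Am μ (n + 1) (xs s) ^ 2 - Bm μ (n + 1) (xs s)) (xs s 0) (xs s (n + 1)) hp hp' hμ hμ' hpμ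
    (pow_nonneg hμ.le _) (hx0 0) (hx1 0) (hx0 _) hxa (Am_le hμ.le hμ' _ hx1)
    (Q_nonneg hμ.le _ hx0 hx2) ((μ - p) * μ ^ (n + 1)) rfl
    (p * xs s 0 + (μ - p) * μ ^ (n + 1) * xs s (n + 1) -
      p * ((μ - p) * μ ^ (n + 1)) * (xs s 0 * xs s (n + 1))) rfl
  have hQ : Am μ (n + 2) (xs s) ^ 2 - Bm μ (n + 2) (xs s) =
      (Am μ (n + 1) (xs s) ^ 2 - Bm μ (n + 1) (xs s)) +
        2 * (Am μ (n + 1) (xs s) * (μ ^ (n + 1) * xs s (n + 1))) := by
    rw [Am_succ μ (n + 1), Bm_succ μ (n + 1)]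
    have : (μ ^ (n + 1) * xs s (n + 1)) ^ 2 = (μ ^ (n + 1)) ^ 2 * xs s (n + 1) := by
      rw [mul_pow, sq (xs s (n + 1)), hx2]
    nlinarith
  have hL : tf p μ s = ((p / μ) * xs s 0 + (1 - p / μ) * (Am μ (n + 1) (xs s) +
      μ ^ (n + 1) * xs s (n + 1))) - 4 * p * ((Am μ (n + 1) (xs s) ^ 2 - Bm μ (n + 1) (xs s)) +
        2 * (Am μ (n + 1) (xs s) * (μ ^ (n + 1) * xs s (n + 1)))) := by
    unfold tf
    rw [hQ, Am_succ μ (n + 1)]
  rw [hL]
  refine le_trans h (le_of_eq ?_)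
  ring

/-- indicator of a nonzero state -/
noncomputable def al {k : ℕ} (s : Fin k → Bool) : ℝ := if ∃ i, s i = true then 1 else 0

lemma tf_bounds {k : ℕ} (hk : 2 ≤ k) {p μ : ℝ} (hp : 0 ≤ p) (hp' : p ≤ 1 / 32) (hμ : 0 < μ)
    (hμ' : μ ≤ 3 / 4) (hpμ : p ≤ μ / 2) (s : Fin k → Bool) :
    0 ≤ tf p μ s ∧ tf p μ s ≤ 4 * al s := by
  have hx0 := xs_nonneg s
  have hx1 := xs_le_one s
  have hx2 := xs_sq s
  have hA0 := Am_nonneg hμ.le k hx0
  have hA4 := Am_le hμ.le hμ' k hx1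
  have hB0 := Bm_nonneg (μ := μ) k hx0
  have hQ := Q_nonneg hμ.le k hx0 hx2
  have hρ0 : 0 ≤ p / μ := div_nonneg hp hμ.le
  have hρ1 : p / μ ≤ 1 / 2 := by
    rw [div_le_iff₀ hμ]
    linarith
  unfold tf
  set A := Am μ k (xs s) with hA
  set B := Bm μ k (xs s) with hB
  set ρ := p / μ with hρ
  constructor
  · have h1 : A / 2 ≤ ρ * xs s 0 + (1 - ρ) * A := by
      have := mul_nonneg hρ0 (hx0 0)
      nlinarith
    have h2 : 4 * p * (A ^ 2 - B) ≤ A / 2 := by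
      have h3 : A ^ 2 - B ≤ 4 * A := by nlinarith
      have h4 : 4 * p * (A ^ 2 - B) ≤ 4 * p * (4 * A) :=
        mul_le_mul_of_nonneg_left h3 (by linarith)
      nlinarith
    linarith
  · by_cases h : ∃ i, s i = true
    · have e : al s = 1 := if_pos h
      rw [e]
      have h1 : ρ * xs s 0 + (1 - ρ) * A ≤ 4 := by
        have h2 := mul_le_mul_of_nonneg_left (hx1 0) hρ0
        have h3 := mul_le_mul_of_nonneg_left hA4 (by linarith : 0 ≤ 1 - ρ)
        nlinarith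
      have h2 : 0 ≤ 4 * p * (A ^ 2 - B) := mul_nonneg (by linarith) hQ
      linarith
    · have e : al s = 0 := if_neg h
      push Not at h
      have hz : ∀ i, xs s i = 0 := by
        intro i
        unfold xs
        split_ifs with h1 h2
        · exact absurd h2 (h _)
        · rfl
        · rfl
      have hA' : A = 0 := by
        rw [hA]
        unfold Am
        exact Finset.sum_eq_zero fun i _ => by rw [hz, mul_zero]
      have hB' : B = 0 := by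
        rw [hB]
        unfold Bm
        exact Finset.sum_eq_zero fun i _ => by rw [hz, mul_zero]
      rw [e, hA', hB', hz]
      simp

lemma tf_init {k : ℕ} (hk : 2 ≤ k) (p μ : ℝ) :
    tf p μ (fun i : Fin k => decide (i.val = 0)) = 1 := by
  have hz : ∀ i, xs (fun i : Fin k => decide (i.val = 0)) i = if i = 0 then 1 else 0 := by
    intro i
    unfold xs
    by_cases h : i < k
    · rw [dif_pos h]
      simp
    · rw [dif_neg h, if_neg (by omega)]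
  have hA : Am μ k (xs (fun i : Fin k => decide (i.val = 0))) = 1 := by
    unfold Am
    rw [Finset.sum_eq_single 0]
    · rw [hz]
      simp
    · intro i _ hi
      rw [hz, if_neg hi, mul_zero]
    · intro h
      exact absurd (Finset.mem_range.mpr (by omega)) h
  have hB : Bm μ k (xs (fun i : Fin k => decide (i.val = 0))) = 1 := by
    unfold Bm
    rw [Finset.sum_eq_single 0]
    · rw [hz]
      simp
    · intro i _ hi
      rw [hz, if_neg hi, mul_zero]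
    · intro h
      exact absurd (Finset.mem_range.mpr (by omega)) h
  unfold tf
  rw [hA, hB, hz]
  simp

end Pool.Agent.E7c0
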