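import Mathlib
import Pool.Agent.E7c0.Test

set_option autoImplicit false
set_option linter.unusedSectionVars false
set_option linter.unusedVariables false

open MeasureTheory

namespace Pool.Agent.E7c0

lemma pow_bound (y : ℝ) (h0 : 0 ≤ y) (h1 : y ≤ 1) (d : ℕ) : (1 - y) ^ d * (1 + d * y) ≤ 1 := by
  have h2 : 1 + (d : ℝ) * y ≤ (1 + y) ^ d := one_add_mul_le_pow (by linarith) d
  have h3 : 0 ≤ (1 - y) ^ d := pow_nonneg (by linarith) d
  calc (1 - y) ^ d * (1 + d * y) ≤ (1 - y) ^ d * (1 + y) ^ d := mul_le_mul_of_nonneg_left h2 h3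
    _ = (1 - y ^ 2) ^ d := by
        rw [← mul_pow]
        congr 1
        ring
    _ ≤ 1 := pow_le_one₀ (by nlinarith) (by nlinarith)

lemma pb_bounds {k : ℕ} (hk : 2 ≤ k) {p q : ℝ} (hp0 : 0 ≤ p) (hp1 : p ≤ 1) (hq0 : 0 ≤ q)
    (hq1 : q ≤ 1) (s : Fin k → Bool) : 0 ≤ pb hk p q s ∧ pb hk p q s ≤ 1 := by
  unfold pb
  have h1 : 0 ≤ (if s ⟨0, by omega⟩ = true then p else 0) ∧
      (if s ⟨0, by omega⟩ = true then p else 0) ≤ 1 := by
    split_ifs <;> constructor <;> linarith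
  have h2 : 0 ≤ (if s ⟨k - 1, by omega⟩ = true then q else 0) ∧
      (if s ⟨k - 1, by omega⟩ = true then q else 0) ≤ 1 := by
    split_ifs <;> constructor <;> linarith
  set a := (if s ⟨0, by omega⟩ = true then p else 0)
  set b := (if s ⟨k - 1, by omega⟩ = true then q else 0)
  constructor
  · nlinarith [h1.1, h1.2, h2.1, h2.2, mul_nonneg h1.1 h2.1]
  · have := mul_nonneg (by linarith [h1.2] : 0 ≤ 1 - a) (by linarith [h2.2] : 0 ≤ 1 - b)
    linarith

lemma al_bounds {k : ℕ} (s : Fin k → Bool) : 0 ≤ al s ∧ al s ≤ 1 := by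
  unfold al
  split_ifs <;> constructor <;> norm_num

lemma U_iter {k : ℕ} (hk : 2 ≤ k) (d : ℕ) {p μ : ℝ} (hp : 0 ≤ p) (hp' : p ≤ 1 / 32)
    (hμ : 0 < μ) (hμ' : μ ≤ 3 / 4) (hpμ : p ≤ μ / 2)
    (hq0 : 0 ≤ (μ - p) * μ ^ (k - 1)) (hq1 : (μ - p) * μ ^ (k - 1) ≤ 1)
    (hΛ : 1 < d * (μ * (1 - 32 * p ^ 2))) (t : ℝ) (ht0 : 0 ≤ t) (ht1 : t ≤ 1 / 4)
    (ht2 : 4 * t * (d * (μ * (1 - 32 * p ^ 2))) ≤ d * (μ * (1 - 32 * p ^ 2)) - 1) (m : ℕ)
    (s : Fin k → Bool) :
    0 ≤ ((U hk d p ((μ - p) * μ ^ (k - 1)))^[m] (fun s => 1 - al s)) s ∧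
      ((U hk d p ((μ - p) * μ ^ (k - 1)))^[m] (fun s => 1 - al s)) s ≤ 1 - t * tf p μ s := by
  induction m generalizing s with
  | zero =>
    simp only [Function.iterate_zero, id_eq]
    have h1 := al_bounds s
    have h2 := tf_bounds hk hp hp' hμ hμ' hpμ s
    refine ⟨by linarith [h1.2], ?_⟩
    have h3 : t * tf p μ s ≤ 1 / 4 * (4 * al s) :=
      mul_le_mul ht1 h2.2 h2.1 (by norm_num)
    linarith
  | succ m ih =>
    rw [Function.iterate_succ_apply']
    set h := (U hk d p ((μ - p) * μ ^ (k - 1)))^[m] (fun s => 1 - al s) with hh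
    unfold U
    set π := pb hk p ((μ - p) * μ ^ (k - 1)) s with hπ
    have hπb := pb_bounds hk hp (by linarith) hq0 hq1 s
    rw [← hπ] at hπb
    have i1 := ih (step s true)
    have i2 := ih (step s false)
    have h1 : 0 ≤ π * h (step s true) + (1 - π) * h (step s false) :=
      add_nonneg (mul_nonneg hπb.1 i1.1) (mul_nonneg (by linarith [hπb.2]) i2.1)
    have h2 := tf_ineq hk hp hp' hμ hμ' hpμ s
    rw [← hπ] at h2
    have h3 : π * h (step s true) + (1 - π) * h (step s false) ≤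
        1 - t * ((μ * (1 - 32 * p ^ 2)) * tf p μ s) := by
      have a1 := mul_le_mul_of_nonneg_left i1.2 hπb.1
      have a2 := mul_le_mul_of_nonneg_left i2.2 (by linarith [hπb.2] : 0 ≤ 1 - π)
      have a3 := mul_le_mul_of_nonneg_left h2 ht0
      nlinarith
    refine ⟨pow_nonneg h1 d, ?_⟩
    have hb := tf_bounds hk hp hp' hμ hμ' hpμ s
    have hal := al_bounds s
    set lm := μ * (1 - 32 * p ^ 2) with hlm
    have hlm0 : 0 ≤ lm := by
      rw [hlm]
      refine mul_nonneg hμ.le ?_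
      nlinarith
    set y := t * (lm * tf p μ s) with hy
    have hy0 : 0 ≤ y := mul_nonneg ht0 (mul_nonneg hlm0 hb.1)
    have hy1 : y ≤ 1 := by linarith
    have h4 : (π * h (step s true) + (1 - π) * h (step s false)) ^ d ≤ (1 - y) ^ d :=
      pow_le_pow_left₀ h1 h3 d
    refine le_trans h4 ?_
    have h5 := pow_bound y hy0 hy1 d
    have h6 : 0 < 1 + (d : ℝ) * y := by positivity
    set τ := t * tf p μ s with hτ
    have hdy : (d : ℝ) * y = (d * lm) * τ := by
      rw [hy, hτ]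
      ring
    have hτ0 : 0 ≤ τ := mul_nonneg ht0 hb.1
    have hτ1 : τ * (d * lm) ≤ d * lm - 1 := by
      have : τ ≤ 4 * t := by
        rw [hτ]
        have : tf p μ s ≤ 4 := by linarith [hb.2, hal.2]
        nlinarith
      have := mul_le_mul_of_nonneg_right this (by linarith : 0 ≤ (d : ℝ) * lm)
      linarith
    have h7 : 1 ≤ (1 - τ) * (1 + d * y) := by
      rw [hdy]
      nlinarith [mul_le_mul_of_nonneg_left hτ1 hτ0]
    have h8 : (1 - y) ^ d * (1 + d * y) ≤ (1 - τ) * (1 + d * y) := le_trans h5 h7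
    exact le_of_mul_le_mul_right h8 h6

variable {d : ℕ}

/-- some vertex of generation `m` has a nonzero state -/
def Alive (d k m : ℕ) : Set (Conf d) := {ω | ∃ w ∈ lev d m, ∃ i, st k ω w i = true}

lemma alive_iff (k m : ℕ) (ω : Conf d) :
    (1 - ∏ w ∈ lev d m, (1 - al (st k ω w))) = (Alive d k m).indicator 1 ω := by
  by_cases h : ω ∈ Alive d k m
  · rw [Set.indicator_of_mem h]
    obtain ⟨w, hw, hi⟩ := h
    rw [Finset.prod_eq_zero hw]
    · simp
    · unfold al
      rw [if_pos hi]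
      ring
  · rw [Set.indicator_of_notMem h]
    rw [Finset.prod_eq_one]
    · ring
    · intro w hw
      unfold al
      rw [if_neg]
      · ring
      · intro hi
        exact h ⟨w, hw, hi⟩

lemma alive_meas (k m : ℕ) : MeasurableSet (Alive d k m) := by
  have h : Measurable (fun ω : Conf d => ∏ w ∈ lev d m, (1 - al (st k ω w))) :=
    (nice_prod _ _ fun w => nice_st k w (fun s => 1 - al s)).1
  have e : Alive d k m = (fun ω : Conf d => ∏ w ∈ lev d m, (1 - al (st k ω w))) ⁻¹' {0} := by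
    ext ω
    have h1 := alive_iff k m ω
    rw [Set.mem_preimage, Set.mem_singleton_iff]
    by_cases hω : ω ∈ Alive d k m
    · rw [Set.indicator_of_mem hω] at h1
      simp only [Pi.one_apply] at h1
      exact ⟨fun _ => by linarith, fun _ => hω⟩
    · rw [Set.indicator_of_notMem hω] at h1
      exact ⟨fun h2 => absurd h2 hω, fun h2 => by rw [h2] at h1; norm_num at h1⟩
  rw [e]
  exact h (measurableSet_singleton 0)

lemma alive_prob {k : ℕ} (hk : 2 ≤ k) {p q : ℝ} (hp0 : 0 ≤ p) (hp1 : p ≤ 1) (hq0 : 0 ≤ q)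
    (hq1 : q ≤ 1) (m : ℕ) :
    (law d p q).real (Alive d k m) =
      1 - ((U hk d p q)^[m] (fun s => 1 - al s)) (fun i => decide (i.val = 0)) := by
  rw [← peel_all hk hp0 hp1 hq0 hq1 m (fun s => 1 - al s)]
  have h1 : E (rr d p q) (fun ω => 1 - ∏ w ∈ lev d m, (1 - al (st k ω w))) =
      1 - E (rr d p q) (fun ω => ∏ w ∈ lev d m, (1 - al (st k ω w))) := by
    rw [E_sub (rr d p q) (nice_const 1)
      (nice_prod _ _ fun w => nice_st k w (fun s => 1 - al s)), E_const]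
  rw [← h1]
  simp only [alive_iff]
  unfold E
  rw [integral_indicator_one (alive_meas k m), law_eq]

lemma alive_anti {k : ℕ} (hk : 2 ≤ k) : Antitone (Alive d k) := by
  refine antitone_nat_of_succ_le fun m => ?_
  rintro ω ⟨w, hw, i, hi⟩
  have hlen := (mem_lev _ _).mp hw
  cases w with
  | nil => simp at hlen
  | cons a v =>
    refine ⟨v, (mem_lev _ _).mpr (by simpa using hlen), ?_⟩
    rw [st_cons hk] at hi
    unfold step at hi
    split_ifs at hi with h0
    · rw [Bool.or_eq_true, Bool.and_eq_true, Bool.and_eq_true] at hi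
      rcases hi with ⟨h1, _⟩ | ⟨h1, _⟩
      · exact ⟨_, h1⟩
      · exact ⟨_, h1⟩
    · exact ⟨_, hi⟩

lemma alive_inter {k : ℕ} (hk : 2 ≤ k) :
    (⋂ m, Alive d k m) ⊆ {ω : Conf d | {w : Vertex d | Reach k ω w}.Infinite} := by
  intro ω hω
  rw [Set.mem_ofPred_eq]
  intro hfin
  obtain ⟨N, hN⟩ := (hfin.image List.length).bddAbove
  have h1 := Set.mem_iInter.mp hω (N + k + 1)
  obtain ⟨w, hw, i, hi⟩ := h1
  have hlen := (mem_lev _ _).mp hw
  have hi' : R k ω w i = true := hi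
  have h2 : i.val ≤ w.length := by
    have := i.2
    omega
  rw [R_drop k ω w i h2] at hi'
  have h3 : Reach k ω (w.drop i) := reach_of_R (by omega) _ _ le_rfl hi'
  have h4 : (w.drop i).length ≤ N := hN ⟨_, h3, rfl⟩
  rw [List.length_drop] at h4
  have := i.2
  omega

/-- percolation occurs -/
theorem theta_pos {k : ℕ} (hk : 2 ≤ k) {p μ : ℝ} (hp : 0 ≤ p) (hp' : p ≤ 1 / 32)
    (hμ : 0 < μ) (hμ' : μ ≤ 3 / 4) (hpμ : p ≤ μ / 2)
    (hΛ : 1 < d * (μ * (1 - 32 * p ^ 2))) : 0 < theta d k p ((μ - p) * μ ^ (k - 1)) := by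
  have hq0 : 0 ≤ (μ - p) * μ ^ (k - 1) := mul_nonneg (by linarith) (pow_nonneg hμ.le _)
  have hpow : μ ^ (k - 1) ≤ 1 := pow_le_one₀ hμ.le (by linarith)
  have hq1 : (μ - p) * μ ^ (k - 1) ≤ 1 := by
    have h1 : (μ - p) * μ ^ (k - 1) ≤ (μ - p) * 1 :=
      mul_le_mul_of_nonneg_left hpow (by linarith)
    linarith
  set Λ : ℝ := d * (μ * (1 - 32 * p ^ 2)) with hΛdef
  obtain ⟨t, ht0, ht1, ht2⟩ : ∃ t : ℝ, 0 < t ∧ t ≤ 1 / 4 ∧ 4 * t * Λ ≤ Λ - 1 := by
    refine ⟨min (1 / 4) ((Λ - 1) / (4 * Λ)), ?_, min_le_left _ _, ?_⟩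
    · refine lt_min (by norm_num) (div_pos (by linarith) (by linarith))
    · have h1 : min (1 / 4) ((Λ - 1) / (4 * Λ)) ≤ (Λ - 1) / (4 * Λ) := min_le_right _ _
      rw [le_div_iff₀ (by linarith)] at h1
      linarith
  have h1 : ∀ m, t ≤ (law d p ((μ - p) * μ ^ (k - 1))).real (Alive d k m) := by
    intro m
    rw [alive_prob hk hp (by linarith) hq0 hq1 m]
    have h2 := (U_iter hk d hp hp' hμ hμ' hpμ hq0 hq1 hΛ t ht0.le ht1 ht2 m
      (fun i => decide (i.val = 0))).2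
    rw [tf_init hk] at h2
    linarith
  have h2 : ENNReal.ofReal t ≤
      (law d p ((μ - p) * μ ^ (k - 1))) (⋂ m, Alive d k m) := by
    have : IsProbabilityMeasure (law d p ((μ - p) * μ ^ (k - 1))) := by
      rw [law_eq]
      infer_instance
    have h3 := tendsto_measure_iInter_atTop (μ := law d p ((μ - p) * μ ^ (k - 1)))
      (s := Alive d k) (fun m => (alive_meas k m).nullMeasurableSet) (alive_anti hk)
      ⟨0, measure_ne_top _ _⟩
    refine ge_of_tendsto h3 (Filter.Eventually.of_forall fun m => ?_)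
    rw [Function.comp_apply]
    exact ENNReal.ofReal_le_of_le_toReal (h1 m)
  have : IsProbabilityMeasure (law d p ((μ - p) * μ ^ (k - 1))) := by
    rw [law_eq]
    infer_instance
  unfold theta
  have h4 : ENNReal.ofReal t ≤ (law d p ((μ - p) * μ ^ (k - 1)))
      {ω : Conf d | {w : Vertex d | Reach k ω w}.Infinite} :=
    le_trans h2 (measure_mono (alive_inter hk))
  have h5 : t ≤ (law d p ((μ - p) * μ ^ (k - 1))).real
      {ω : Conf d | {w : Vertex d | Reach k ω w}.Infinite} := by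
    rw [measureReal_def]
    rw [← ENNReal.ofReal_le_iff_le_toReal (measure_ne_top _ _)]
    exact h4
  linarith

end Pool.Agent.E7c0
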