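import Mathlib
import Pool.Agent.E7c0.Surv

set_option autoImplicit false
set_option linter.unusedSectionVars false
set_option linter.unusedVariables false

open MeasureTheory

namespace Pool.Agent.E7c0

variable {d : ℕ}

/-- indicator of a Boolean -/
noncomputable def bi (b : Bool) : ℝ := if b = true then 1 else 0

lemma bi_nonneg (b : Bool) : 0 ≤ bi b := by
  unfold bi
  split_ifs <;> norm_num

lemma bi_le_one (b : Bool) : bi b ≤ 1 := by
  unfold bi
  split_ifs <;> norm_num

/-- the probability that `w` is reached -/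
noncomputable def aw (k : ℕ) (p q : ℝ) (w : Vertex d) : ℝ :=
  E (rr d p q) (fun ω => bi (R k ω w 0))

lemma nice_R (k : ℕ) (w : Vertex d) (i : ℕ) : Nice (fun ω : Conf d => bi (R k ω w i)) :=
  nice_of_bool (R_meas k w i) bi

lemma nice_coord (e : Vertex d × Bool) : Nice (fun ω : Conf d => bi (ω e)) :=
  nice_of_bool (measurable_pi_apply e) bi

/-- all short edges from `x` to `u ++ x` are open -/
noncomputable def sp (ω : Conf d) : List (Fin d) → List (Fin d) → ℝ
  | [], _ => 1
  | (c :: y), x => bi (ω (c :: (y ++ x), false)) * sp ω y x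

lemma sp_nonneg (ω : Conf d) (u x : List (Fin d)) : 0 ≤ sp ω u x := by
  induction u with
  | nil => exact zero_le_one
  | cons c y ih => exact mul_nonneg (bi_nonneg _) ih

lemma nice_sp (u x : List (Fin d)) : Nice (fun ω : Conf d => sp ω u x) := by
  induction u with
  | nil => exact nice_const 1
  | cons c y ih => exact (nice_coord _).mul ih

lemma sp_congr {σ τ : Conf d} (u x : List (Fin d))
    (h : ∀ z : List (Fin d), x.length < z.length → z.length ≤ u.length + x.length →
      σ (z, false) = τ (z, false)) : sp σ u x = sp τ u x := by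
  induction u with
  | nil => rfl
  | cons c y ih =>
    show bi (σ (c :: (y ++ x), false)) * sp σ y x = bi (τ (c :: (y ++ x), false)) * sp τ y x
    rw [ih, h (c :: (y ++ x))]
    · rw [List.length_cons, List.length_append]
      omega
    · rw [List.length_cons, List.length_append, List.length_cons]
      omega
    · intro z h1 h2
      refine h z h1 ?_
      simp
      omega

lemma sp_le (k : ℕ) (ω : Conf d) (u x : List (Fin d)) :
    bi (R k ω x 0) * sp ω u x ≤ bi (R k ω (u ++ x) 0) := by
  induction u with
  | nil =>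
    show bi (R k ω x 0) * 1 ≤ bi (R k ω x 0)
    rw [mul_one]
  | cons c y ih =>
    have h1 : bi (R k ω (y ++ x) 0) * bi (ω (c :: (y ++ x), false)) ≤
        bi (R k ω (c :: (y ++ x)) 0) := by
      show _ ≤ bi ((R k ω (y ++ x) 0 && ω (c :: (y ++ x), false)) ||
        (R k ω (y ++ x) (k - 1) && ω (c :: (y ++ x), true)))
      cases R k ω (y ++ x) 0 <;> cases ω (c :: (y ++ x), false) <;>
        cases R k ω (y ++ x) (k - 1) <;> cases ω (c :: (y ++ x), true) <;> simp [bi]
    have h2 := mul_le_mul_of_nonneg_right ih (bi_nonneg (ω (c :: (y ++ x), false)))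
    calc bi (R k ω x 0) * sp ω (c :: y) x =
        bi (R k ω x 0) * sp ω y x * bi (ω (c :: (y ++ x), false)) := by
          show bi (R k ω x 0) * (bi (ω (c :: (y ++ x), false)) * sp ω y x) = _
          ring
      _ ≤ _ := h2
      _ ≤ _ := h1

section probs

variable {p q : ℝ} (hp0 : 0 ≤ p) (hp1 : p ≤ 1) (hq0 : 0 ≤ q) (hq1 : q ≤ 1)

include hp0 hp1 hq0 hq1

lemma E_short (w : Vertex d) : E (rr d p q) (fun ω => bi (ω (w, false))) = p := by
  rw [E_coord (rr d p q) (w, false) (rr_nonneg hp0 hq0 _) (rr_le_one hp1 hq1 _) bi]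
  simp [rr, bi]

lemma E_long (w : Vertex d) : E (rr d p q) (fun ω => bi (ω (w, true))) = q := by
  rw [E_coord (rr d p q) (w, true) (rr_nonneg hp0 hq0 _) (rr_le_one hp1 hq1 _) bi]
  simp [rr, bi]

lemma E_sp (u x : List (Fin d)) : E (rr d p q) (fun ω => sp ω u x) = p ^ u.length := by
  induction u with
  | nil => exact E_const _ 1
  | cons c y ih =>
    show E (rr d p q) (fun ω => bi (ω (c :: (y ++ x), false)) * sp ω y x) = _
    rw [E_indep (rr d p q) (fun e => e = (c :: (y ++ x), false)) (nice_coord _) (nice_sp y x), ih,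
      E_short hp0 hp1 hq0 hq1, List.length_cons, pow_succ']
    · intro σ τ
      unfold mrg
      rw [if_pos rfl]
    · intro σ τ
      refine sp_congr y x fun z h1 h2 => ?_
      unfold mrg
      rw [if_neg]
      intro h
      have h3 := congrArg (fun e : Vertex d × Bool => e.1.length) h
      simp at h3
      omega

lemma aw_nonneg (k : ℕ) (w : Vertex d) : 0 ≤ aw k p q w :=
  integral_nonneg fun ω => bi_nonneg _

lemma aw_cons (k : ℕ) (hk : 2 ≤ k) (c : Fin d) (v : Vertex d) :
    aw k p q (c :: v) ≤ p * aw k p q v +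
      q * (1 - p ^ k) * (if k - 1 ≤ v.length then aw k p q (v.drop (k - 1)) else 0) := by
  have hpt : ∀ ω : Conf d, bi (R k ω (c :: v) 0) =
      bi (ω (c :: v, false)) * bi (R k ω v 0) +
      bi (R k ω v (k - 1)) * (bi (ω (c :: v, true)) *
        (1 - bi (R k ω v 0) * bi (ω (c :: v, false)))) := by
    intro ω
    show bi ((R k ω v 0 && ω (c :: v, false)) || (R k ω v (k - 1) && ω (c :: v, true))) = _
    cases R k ω v 0 <;> cases ω (c :: v, false) <;> cases R k ω v (k - 1) <;>
      cases ω (c :: v, true) <;> simp [bi]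
  have hn1 : Nice (fun ω : Conf d => bi (ω (c :: v, false)) * bi (R k ω v 0)) :=
    (nice_coord _).mul (nice_R k v 0)
  have hn2 : Nice (fun ω : Conf d => bi (R k ω v (k - 1)) * (bi (ω (c :: v, true)) *
        (1 - bi (R k ω v 0) * bi (ω (c :: v, false))))) :=
    (nice_R k v _).mul ((nice_coord _).mul ((nice_const 1).sub ((nice_R k v 0).mul (nice_coord _))))
  have h1 : aw k p q (c :: v) = E (rr d p q) (fun ω => bi (ω (c :: v, false)) * bi (R k ω v 0)) +
      E (rr d p q) (fun ω => bi (R k ω v (k - 1)) * (bi (ω (c :: v, true)) *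
        (1 - bi (R k ω v 0) * bi (ω (c :: v, false))))) := by
    rw [← E_add (rr d p q) hn1 hn2]
    unfold aw
    congr 1
    funext ω
    exact hpt ω
  have h2 : E (rr d p q) (fun ω => bi (ω (c :: v, false)) * bi (R k ω v 0)) =
      p * aw k p q v := by
    rw [E_indep (rr d p q) (fun e => e = (c :: v, false)) (nice_coord _) (nice_R k v 0),
      E_short hp0 hp1 hq0 hq1]
    · rfl
    · intro σ τ
      unfold mrg
      rw [if_pos rfl]
    · intro σ τ
      have h3 : R k (mrg (fun e => e = (c :: v, false)) σ τ) v 0 = R k τ v 0 := by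
        have h4 : mrg (fun e : Vertex d × Bool => e = (c :: v, false)) σ τ =
            mrg (fun e : Vertex d × Bool => e ≠ (c :: v, false)) τ σ := by
          funext e
          unfold mrg
          by_cases he : e = (c :: v, false)
          · rw [if_pos he, if_neg (by simp [he])]
          · rw [if_neg he, if_pos he]
        rw [h4]
        refine R_mrg k _ τ σ v.length ?_ v le_rfl 0
        intro w b hw h
        have h5 := congrArg (fun e : Vertex d × Bool => e.1.length) h
        simp at h5
        omega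
      rw [h3]
  rw [h1, h2]
  have h3 : E (rr d p q) (fun ω => bi (R k ω v (k - 1)) * (bi (ω (c :: v, true)) *
        (1 - bi (R k ω v 0) * bi (ω (c :: v, false))))) ≤
      q * (1 - p ^ k) * (if k - 1 ≤ v.length then aw k p q (v.drop (k - 1)) else 0) := by
    by_cases hlen : k - 1 ≤ v.length
    · rw [if_pos hlen]
      set x := v.drop (k - 1) with hx
      set y := v.take (k - 1) with hy
      have hv : y ++ x = v := List.take_append_drop _ _
      have hylen : y.length = k - 1 := by
        rw [hy, List.length_take]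
        omega
      have h4 : ∀ ω : Conf d, bi (R k ω v (k - 1)) * (bi (ω (c :: v, true)) *
        (1 - bi (R k ω v 0) * bi (ω (c :: v, false)))) ≤
          bi (R k ω x 0) * (bi (ω (c :: v, true)) * (1 - sp ω (c :: y) x)) := by
        intro ω
        rw [R_drop k ω v (k - 1) hlen, ← hx]
        have h5 := sp_le k ω y x
        rw [hv] at h5
        have h6 : sp ω (c :: y) x = bi (ω (c :: v, false)) * sp ω y x := by
          show bi (ω (c :: (y ++ x), false)) * sp ω y x = _
          rw [hv]
        rw [h6]
        have b1 := bi_nonneg (R k ω x 0)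
        have b2 := bi_nonneg (ω (c :: v, true))
        have b3 := bi_nonneg (ω (c :: v, false))
        have b4 := mul_le_mul_of_nonneg_left h5 (mul_nonneg b2 b3)
        have b5 : bi (R k ω x 0) * bi (R k ω v 0) ≤ bi (R k ω x 0) * bi (R k ω v 0) := le_rfl
        -- bi(x) * sp ≤ bi(x) * bi(v), using bi(x)^2 = bi(x)
        have b6 : bi (R k ω x 0) * bi (R k ω x 0) = bi (R k ω x 0) := by
          unfold bi
          split_ifs <;> norm_num
        have b7 : bi (R k ω x 0) * sp ω y x ≤ bi (R k ω x 0) * bi (R k ω v 0) := by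
          have := mul_le_mul_of_nonneg_left h5 b1
          rw [← mul_assoc, b6] at this
          exact this
        have b8 := mul_le_mul_of_nonneg_left b7 (mul_nonneg b2 b3)
        nlinarith
      have h5 : E (rr d p q) (fun ω => bi (R k ω x 0) * (bi (ω (c :: v, true)) *
          (1 - sp ω (c :: y) x))) = aw k p q x * (q * (1 - p ^ k)) := by
        rw [E_indep (rr d p q) (fun e => e.1.length ≤ x.length) (nice_R k x 0)
          ((nice_coord _).mul ((nice_const 1).sub (nice_sp _ _)))]
        · rw [E_indep (rr d p q) (fun e => e = (c :: v, true)) (nice_coord _)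
            ((nice_const 1).sub (nice_sp _ _)), E_long hp0 hp1 hq0 hq1,
            E_sub (rr d p q) (nice_const 1) (nice_sp _ _), E_const, E_sp hp0 hp1 hq0 hq1,
            List.length_cons, hylen]
          · have : k - 1 + 1 = k := by omega
            rw [this]
            rfl
          · intro σ τ
            unfold mrg
            rw [if_pos rfl]
          · intro σ τ
            congr 1
            refine sp_congr _ _ fun z h6 h7 => ?_
            unfold mrg
            rw [if_neg]
            intro h
            have := congrArg Prod.snd h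
            simp at this
        · intro σ τ
          rw [R_mrg k _ σ τ x.length (fun w b hw => hw) x le_rfl 0]
        · intro σ τ
          have hvx : x.length < (c :: v).length := by
            rw [← hv, List.length_cons, List.length_append]
            omega
          have h6 : mrg (fun e : Vertex d × Bool => e.1.length ≤ x.length) σ τ (c :: v, true) =
              τ (c :: v, true) := by
            unfold mrg
            rw [if_neg]
            simp only [not_le]
            exact hvx
          rw [h6]
          congr 2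
          refine sp_congr _ _ fun z h7 h8 => ?_
          unfold mrg
          rw [if_neg]
          simp only [not_le]
          exact h7
      have hn3 : Nice (fun ω : Conf d => bi (R k ω x 0) * (bi (ω (c :: v, true)) *
          (1 - sp ω (c :: y) x))) :=
        (nice_R k x 0).mul ((nice_coord _).mul ((nice_const 1).sub (nice_sp _ _)))
      refine le_trans (E_mono (rr d p q) hn2 hn3 h4) ?_
      rw [h5, mul_comm]
    · rw [if_neg hlen, mul_zero]
      push Not at hlen
      have h4 : (fun ω : Conf d => bi (R k ω v (k - 1)) * (bi (ω (c :: v, true)) *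
        (1 - bi (R k ω v 0) * bi (ω (c :: v, false))))) = fun _ => (0 : ℝ) := by
        funext ω
        rw [R_big k ω v (k - 1) hlen]
        simp [bi]
      rw [h4, E_const]
  linarith

/-- expected number of reached vertices of generation `n` -/
noncomputable def Sn (d k : ℕ) (p q : ℝ) (n : ℕ) : ℝ := ∑ w ∈ lev d n, aw k p q w

omit hp0 hp1 hq0 hq1 in
lemma sum_drop (F : List (Fin d) → ℝ) (j m : ℕ) :
    ∑ v ∈ lev d (j + m), F (v.drop j) = (d : ℝ) ^ j * ∑ v ∈ lev d m, F v := by
  induction j with
  | zero => simp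
  | succ j ih =>
    have e : j + 1 + m = (j + m) + 1 := by ring
    rw [e, sum_lev_succ]
    have e2 : ∀ v ∈ lev d (j + m), ∑ a : Fin d, F ((a :: v).drop (j + 1)) =
        (d : ℝ) * F (v.drop j) := by
      intro v _
      simp
    rw [Finset.sum_congr rfl e2, ← Finset.mul_sum, ih, pow_succ]
    ring

lemma Sn_nonneg (k n : ℕ) : 0 ≤ Sn d k p q n :=
  Finset.sum_nonneg fun w _ => aw_nonneg hp0 hp1 hq0 hq1 k w

lemma Sn_succ (k : ℕ) (hk : 2 ≤ k) (n : ℕ) :
    Sn d k p q (n + 1) ≤ (d * p) * Sn d k p q n +
      (q * (1 - p ^ k) * (d : ℝ) ^ k) * (if k ≤ n + 1 then Sn d k p q (n + 1 - k) else 0) := by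
  unfold Sn
  rw [sum_lev_succ]
  have h1 : ∑ v ∈ lev d n, ∑ a : Fin d, aw k p q (a :: v) ≤
      ∑ v ∈ lev d n, (d * (p * aw k p q v +
      q * (1 - p ^ k) * (if k - 1 ≤ v.length then aw k p q (v.drop (k - 1)) else 0))) := by
    refine Finset.sum_le_sum fun v _ => ?_
    have h2 : ∑ a : Fin d, aw k p q (a :: v) ≤ ∑ _a : Fin d, (p * aw k p q v +
      q * (1 - p ^ k) * (if k - 1 ≤ v.length then aw k p q (v.drop (k - 1)) else 0)) :=
      Finset.sum_le_sum fun a _ => aw_cons hp0 hp1 hq0 hq1 k hk a v
    rw [Finset.sum_const, Finset.card_univ, Fintype.card_fin, nsmul_eq_mul] at h2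
    exact h2
  refine le_trans h1 (le_of_eq ?_)
  rw [← Finset.mul_sum, Finset.sum_add_distrib, ← Finset.mul_sum, ← Finset.mul_sum]
  by_cases hkn : k ≤ n + 1
  · rw [if_pos hkn]
    obtain ⟨m, hm⟩ : ∃ m, n = (k - 1) + m := ⟨n - (k - 1), by omega⟩
    have h2 : ∑ v ∈ lev d n, (if k - 1 ≤ v.length then aw k p q (v.drop (k - 1)) else 0) =
        (d : ℝ) ^ (k - 1) * ∑ v ∈ lev d (n + 1 - k), aw k p q v := by
      have h3 : ∑ v ∈ lev d n, (if k - 1 ≤ v.length then aw k p q (v.drop (k - 1)) else 0) =
          ∑ v ∈ lev d n, aw k p q (v.drop (k - 1)) := by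
        refine Finset.sum_congr rfl fun v hv => ?_
        rw [(mem_lev _ _).mp hv, if_pos (by omega)]
      have h4 : n + 1 - k = m := by omega
      rw [h3, h4, hm]
      exact sum_drop (fun v => aw k p q v) (k - 1) m
    rw [h2]
    have h5 : (d : ℝ) ^ k = d * (d : ℝ) ^ (k - 1) := by
      rw [← pow_succ']
      congr 1
      omega
    rw [h5]
    ring
  · rw [if_neg hkn]
    have h2 : ∑ v ∈ lev d n, (if k - 1 ≤ v.length then aw k p q (v.drop (k - 1)) else 0) = 0 := by
      refine Finset.sum_eq_zero fun v hv => ?_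
      rw [(mem_lev _ _).mp hv, if_neg (by omega)]
    rw [h2]
    ring

omit hp0 hp1 hq0 hq1 in
lemma shift_sum (k : ℕ) (hk : 1 ≤ k) (S : ℕ → ℝ) (N : ℕ) :
    ∑ n ∈ Finset.range N, (if k ≤ n + 1 then S (n + 1 - k) else 0) =
      ∑ j ∈ Finset.range (N + 1 - k), S j := by
  induction N with
  | zero =>
    have : 0 + 1 - k = 0 := by omega
    rw [this]
    simp
  | succ N ih =>
    rw [Finset.sum_range_succ, ih]
    by_cases h : k ≤ N + 1
    · rw [if_pos h]
      have : N + 1 + 1 - k = (N + 1 - k) + 1 := by omega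
      rw [this, Finset.sum_range_succ]
    · rw [if_neg h, add_zero]
      have : N + 1 + 1 - k = N + 1 - k := by omega
      rw [this]

lemma Sn_sum (k : ℕ) (hk : 2 ≤ k) (hρ : p * d + q * (1 - p ^ k) * (d : ℝ) ^ k < 1) (N : ℕ) :
    ∑ n ∈ Finset.range N, Sn d k p q n ≤
      1 / (1 - (p * d + q * (1 - p ^ k) * (d : ℝ) ^ k)) := by
  set ρ := p * d + q * (1 - p ^ k) * (d : ℝ) ^ k with hρdef
  have hpk : p ^ k ≤ 1 := pow_le_one₀ hp0 hp1
  have hc : 0 ≤ q * (1 - p ^ k) * (d : ℝ) ^ k :=
    mul_nonneg (mul_nonneg hq0 (by linarith)) (by positivity)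
  have hdp : 0 ≤ (d : ℝ) * p := by positivity
  have hρ0 : 0 ≤ ρ := by
    rw [hρdef]
    nlinarith
  induction N with
  | zero =>
    rw [Finset.sum_range_zero]
    exact div_nonneg zero_le_one (by linarith)
  | succ N ih =>
    rw [Finset.sum_range_succ']
    have h0 : Sn d k p q 0 ≤ 1 := by
      unfold Sn
      show ∑ w ∈ ({[]} : Finset (List (Fin d))), aw k p q w ≤ 1
      rw [Finset.sum_singleton]
      unfold aw
      have : (fun ω : Conf d => bi (R k ω [] 0)) = fun _ => (1 : ℝ) := by
        funext ω
        show bi (decide (0 = 0)) = 1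
        simp [bi]
      rw [this, E_const]
    have h1 : ∑ n ∈ Finset.range N, Sn d k p q (n + 1) ≤
        ∑ n ∈ Finset.range N, ((d * p) * Sn d k p q n +
      (q * (1 - p ^ k) * (d : ℝ) ^ k) * (if k ≤ n + 1 then Sn d k p q (n + 1 - k) else 0)) :=
      Finset.sum_le_sum fun n _ => Sn_succ hp0 hp1 hq0 hq1 k hk n
    rw [Finset.sum_add_distrib, ← Finset.mul_sum, ← Finset.mul_sum,
      shift_sum k (by omega) (Sn d k p q) N] at h1
    have h2 : ∑ j ∈ Finset.range (N + 1 - k), Sn d k p q j ≤ ∑ n ∈ Finset.range N, Sn d k p q n := by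
      refine Finset.sum_le_sum_of_subset_of_nonneg ?_ fun n _ _ =>
        Sn_nonneg hp0 hp1 hq0 hq1 k n
      intro j hj
      rw [Finset.mem_range] at hj ⊢
      omega
    have h3 := mul_le_mul_of_nonneg_left h2 hc
    have h4 : ∑ n ∈ Finset.range N, Sn d k p q (n + 1) ≤
        ρ * ∑ n ∈ Finset.range N, Sn d k p q n := by
      rw [hρdef]
      linarith
    have h5 := mul_le_mul_of_nonneg_left ih hρ0
    have h6 : ρ * (1 / (1 - ρ)) + 1 = 1 / (1 - ρ) := by
      have : 1 - ρ ≠ 0 := by linarith
      field_simp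
      ring
    linarith

/-- no percolation below the known lower bound -/
theorem theta_zero (k : ℕ) (hk : 2 ≤ k) (hρ : p * d + q * (1 - p ^ k) * (d : ℝ) ^ k < 1) :
    theta d k p q = 0 := by
  have hprob : IsProbabilityMeasure (law d p q) := by
    rw [law_eq]
    infer_instance
  have hR : ∀ w : Vertex d, (law d p q).real {ω | R k ω w 0 = true} = aw k p q w := by
    intro w
    unfold aw E
    rw [law_eq]
    have hm : MeasurableSet {ω : Conf d | R k ω w 0 = true} :=
      (R_meas k w 0) (measurableSet_singleton true)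
    rw [← integral_indicator_one hm]
    congr 1
    funext ω
    by_cases h : R k ω w 0 = true
    · rw [Set.indicator_of_mem (show ω ∈ {ω : Conf d | R k ω w 0 = true} from h)]
      simp [bi, h]
    · rw [Set.indicator_of_notMem (show ω ∉ {ω : Conf d | R k ω w 0 = true} from h)]
      simp [bi, h]
  have hsum : (∑' w : Vertex d, (law d p q) {ω | R k ω w 0 = true}) ≠ ⊤ := by
    have h1 : (∑' w : Vertex d, (law d p q) {ω | R k ω w 0 = true}) ≤
        ENNReal.ofReal (1 / (1 - (p * d + q * (1 - p ^ k) * (d : ℝ) ^ k))) := by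
      rw [ENNReal.tsum_eq_iSup_sum]
      refine iSup_le fun F => ?_
      have h2 : ∀ w, (law d p q) {ω | R k ω w 0 = true} = ENNReal.ofReal (aw k p q w) := by
        intro w
        rw [← hR w, measureReal_def, ENNReal.ofReal_toReal (measure_ne_top _ _)]
      rw [Finset.sum_congr rfl (fun w _ => h2 w), ← ENNReal.ofReal_sum_of_nonneg
        (fun w _ => aw_nonneg hp0 hp1 hq0 hq1 k w)]
      refine ENNReal.ofReal_le_ofReal ?_
      obtain ⟨N, hN⟩ : ∃ N, ∀ w ∈ F, w.length < N := by
        refine ⟨F.sup List.length + 1, fun w hw => ?_⟩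
        exact Nat.lt_succ_of_le (Finset.le_sup (f := List.length) hw)
      have h3 : F ⊆ (Finset.range N).biUnion (lev d) := by
        intro w hw
        rw [Finset.mem_biUnion]
        exact ⟨w.length, Finset.mem_range.mpr (hN w hw), (mem_lev _ _).mpr rfl⟩
      have h4 : ∑ w ∈ F, aw k p q w ≤ ∑ w ∈ (Finset.range N).biUnion (lev d), aw k p q w :=
        Finset.sum_le_sum_of_subset_of_nonneg h3 fun w _ _ => aw_nonneg hp0 hp1 hq0 hq1 k w
      have h5 : ∑ w ∈ (Finset.range N).biUnion (lev d), aw k p q w =
          ∑ n ∈ Finset.range N, Sn d k p q n := by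
        rw [Finset.sum_biUnion]
        · rfl
        · intro i _ j _ hij
          rw [Function.onFun, Finset.disjoint_left]
          intro w h6 h7
          rw [mem_lev] at h6 h7
          exact hij (by rw [← h6, ← h7])
      rw [h5] at h4
      exact le_trans h4 (Sn_sum hp0 hp1 hq0 hq1 k hk hρ N)
    exact ne_top_of_le_ne_top ENNReal.ofReal_ne_top h1
  have hae := ae_finite_setOfPred_mem hsum
  unfold theta
  rw [measureReal_def]
  have h0 : (law d p q) {ω : Conf d | {w : Vertex d | Reach k ω w}.Infinite} = 0 := by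
    refine measure_mono_null ?_ (ae_iff.mp hae)
    intro ω hω
    show ¬ Set.Finite {w : Vertex d | ω ∈ {ω : Conf d | R k ω w 0 = true}}
    have e : {w : Vertex d | ω ∈ {ω : Conf d | R k ω w 0 = true}} =
        {w : Vertex d | Reach k ω w} := by
      ext w
      exact R_zero_iff (by omega)
    rw [e]
    exact hω
  rw [h0]
  rfl

end probs

end Pool.Agent.E7c0
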