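import Mathlib
import Pool.Agent.E7c0.Low

set_option autoImplicit false
set_option linter.unusedSectionVars false
set_option linter.unusedVariables false

open MeasureTheory Filter Topology

namespace Pool.Agent.E7c0

variable {d k : ℕ}

lemma set_bdd (p : ℝ) : BddBelow {q : ℝ | 0 < q ∧ q < 1 ∧ 0 < theta d k p q} :=
  ⟨0, fun q hq => hq.1.le⟩

lemma mem_set (hk : 2 ≤ k) {p μ : ℝ} (hp : 0 ≤ p) (hp' : p ≤ 1 / 32)
    (hμ : 0 < μ) (hμ' : μ ≤ 3 / 4) (hpμ : p ≤ μ / 2)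
    (hΛ : 1 < d * (μ * (1 - 32 * p ^ 2))) :
    (μ - p) * μ ^ (k - 1) ∈ {q : ℝ | 0 < q ∧ q < 1 ∧ 0 < theta d k p q} := by
  refine ⟨mul_pos (by linarith) (pow_pos hμ _), ?_, theta_pos hk hp hp' hμ hμ' hpμ hΛ⟩
  have hpow : μ ^ (k - 1) ≤ 1 := pow_le_one₀ hμ.le (by linarith)
  have h1 : (μ - p) * μ ^ (k - 1) ≤ (μ - p) * 1 :=
    mul_le_mul_of_nonneg_left hpow (by linarith)
  linarith

lemma qc_le (hk : 2 ≤ k) {p μ : ℝ} (hp : 0 ≤ p) (hp' : p ≤ 1 / 32)
    (hμ : 0 < μ) (hμ' : μ ≤ 3 / 4) (hpμ : p ≤ μ / 2)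
    (hΛ : 1 < d * (μ * (1 - 32 * p ^ 2))) : qc d k p ≤ (μ - p) * μ ^ (k - 1) :=
  csInf_le (set_bdd p) (mem_set hk hp hp' hμ hμ' hpμ hΛ)

lemma le_qc (hd : 2 ≤ d) (hk : 2 ≤ k) {p : ℝ} (hp : 0 ≤ p) (hp' : p ≤ 1 / 32) :
    (1 - p * d) / (d ^ k * (1 - p ^ k)) ≤ qc d k p := by
  have hdr : (2 : ℝ) ≤ d := by exact_mod_cast hd
  have hne : {q : ℝ | 0 < q ∧ q < 1 ∧ 0 < theta d k p q}.Nonempty := by
    refine ⟨_, mem_set (μ := 3 / 4) hk hp hp' (by norm_num) le_rfl (by linarith) ?_⟩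
    have h1 : 32 * p ^ 2 ≤ 1 / 32 := by nlinarith
    nlinarith
  refine le_csInf hne ?_
  rintro q ⟨hq0, hq1, hq⟩
  have hpk : p ^ k < 1 := pow_lt_one₀ hp (by linarith) (by omega)
  have hdk : 0 < (d : ℝ) ^ k := by positivity
  rw [div_le_iff₀ (mul_pos hdk (by linarith))]
  by_contra hcon
  push Not at hcon
  have h0 := theta_zero (d := d) hp (by linarith) hq0.le hq1.le k hk (by nlinarith)
  rw [h0] at hq
  exact lt_irrefl _ hq

lemma qc_zero (hd : 2 ≤ d) (hk : 2 ≤ k) : qc d k 0 = (1 / d : ℝ) ^ k := by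
  have hdr : (2 : ℝ) ≤ d := by exact_mod_cast hd
  refine le_antisymm ?_ ?_
  · have h1 : Tendsto (fun μ : ℝ => μ ^ k) (𝓝[>] (1 / d : ℝ)) (𝓝 ((1 / d : ℝ) ^ k)) :=
      ((continuous_pow k).tendsto _).mono_left nhdsWithin_le_nhds
    refine ge_of_tendsto h1 ?_
    have hlt : (1 / d : ℝ) < 3 / 4 := by
      rw [div_lt_iff₀ (by linarith)]
      linarith
    filter_upwards [Ioo_mem_nhdsGT hlt] with μ hμ
    have hμ0 : 0 < μ := lt_trans (by positivity) hμ.1
    have h2 := qc_le (d := d) (p := 0) (μ := μ) hk le_rfl (by norm_num) hμ0 hμ.2.le (by linarith)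
      (by
        have := hμ.1
        rw [div_lt_iff₀ (by linarith)] at this
        nlinarith)
    rw [sub_zero, ← pow_succ'] at h2
    have e : k - 1 + 1 = k := by omega
    rwa [e] at h2
  · have h := le_qc (d := d) hd hk le_rfl (by norm_num : (0 : ℝ) ≤ 1 / 32)
    rw [zero_pow (by omega : k ≠ 0), zero_mul, sub_zero, mul_one] at h
    rw [one_div, inv_pow, ← one_div]
    exact h

/-- the upper function -/
noncomputable def m1 (d : ℕ) (x : ℝ) : ℝ := (1 + x ^ 2) / (d * (1 - 32 * x ^ 2))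

lemma m1_deriv (hd : 2 ≤ d) : HasDerivAt (m1 d) 0 0 := by
  have hdr : (2 : ℝ) ≤ d := by exact_mod_cast hd
  have h1 : HasDerivAt (fun x : ℝ => 1 + x ^ 2) (0 : ℝ) 0 := by
    have := (hasDerivAt_pow 2 (0 : ℝ)).const_add 1
    simpa using this
  have h2 : HasDerivAt (fun x : ℝ => (d : ℝ) * (1 - 32 * x ^ 2)) (0 : ℝ) 0 := by
    have := (((hasDerivAt_pow 2 (0 : ℝ)).const_mul 32).const_sub 1).const_mul (d : ℝ)
    simpa using this
  have h3 := h1.div h2 (by simp; omega)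
  have e : (0 * ((d : ℝ) * (1 - 32 * (0 : ℝ) ^ 2)) - (1 + (0 : ℝ) ^ 2) * 0) /
      ((d : ℝ) * (1 - 32 * (0 : ℝ) ^ 2)) ^ 2 = 0 := by simp
  rw [e] at h3
  exact h3

lemma m1_zero : m1 d 0 = 1 / d := by
  unfold m1
  simp

lemma up_deriv (hd : 2 ≤ d) (k : ℕ) :
    HasDerivAt (fun x => (m1 d x - x) * m1 d x ^ (k - 1)) (-(1 / d : ℝ) ^ (k - 1)) 0 := by
  have h1 := (m1_deriv hd).sub (hasDerivAt_id (0 : ℝ))
  have h2 := (m1_deriv hd).pow (k - 1)
  have h3 := h1.mul h2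
  have e : (0 - 1) * m1 d 0 ^ (k - 1) +
      (m1 d 0 - id 0) * (((k - 1 : ℕ) : ℝ) * m1 d 0 ^ (k - 1 - 1) * 0) =
      -(1 / d : ℝ) ^ (k - 1) := by
    rw [m1_zero]
    ring
  have h4 : HasDerivAt (fun x => (m1 d x - x) * m1 d x ^ (k - 1))
      ((0 - 1) * m1 d 0 ^ (k - 1) +
      (m1 d 0 - id 0) * (((k - 1 : ℕ) : ℝ) * m1 d 0 ^ (k - 1 - 1) * 0)) 0 := h3
  rw [e] at h4
  exact h4

theorem not_concave (hd : 2 ≤ d) (hk : 2 ≤ k) {δ : ℝ} (h0 : 0 < δ) :
    ¬ ConcaveOn ℝ (Set.Icc 0 δ) (qc d k) := by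
  intro hc
  have hdr : (2 : ℝ) ≤ d := by exact_mod_cast hd
  have hd0 : (0 : ℝ) < d := by linarith
  obtain ⟨P, hP0, hPδ, hP1, hP2⟩ : ∃ P : ℝ, 0 < P ∧ P ≤ δ ∧ P ≤ 1 / 32 ∧ P ≤ 1 / (2 * d) := by
    refine ⟨min δ (min (1 / 32) (1 / (2 * d))), ?_, min_le_left _ _,
      le_trans (min_le_right _ _) (min_le_left _ _),
      le_trans (min_le_right _ _) (min_le_right _ _)⟩
    refine lt_min h0 (lt_min (by norm_num) (by positivity))
  have hPd : P * d ≤ 1 / 2 := by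
    rw [le_div_iff₀ (by positivity)] at hP2
    linarith
  have hz := qc_zero (d := d) (k := k) hd hk
  have hdk : 0 < (d : ℝ) ^ k := by positivity
  -- strict lower bound at P
  have hlow : (1 - P * d) / d ^ k < qc d k P := by
    refine lt_of_lt_of_le ?_ (le_qc hd hk hP0.le hP1)
    have hPk0 : 0 < P ^ k := pow_pos hP0 k
    have hPk1 : P ^ k < 1 := pow_lt_one₀ hP0.le (by linarith) (by omega)
    refine div_lt_div_of_pos_left (by linarith) (mul_pos hdk (by linarith)) ?_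
    nlinarith
  have hkk : (d : ℝ) ^ k = d * (d : ℝ) ^ (k - 1) := by
    rw [← pow_succ']
    congr 1
    omega
  have hslope : -(1 / d : ℝ) ^ (k - 1) < (qc d k P - qc d k 0) / P := by
    rw [lt_div_iff₀ hP0, hz]
    have e : (1 - P * d) / (d : ℝ) ^ k = (1 / d : ℝ) ^ k - (1 / d : ℝ) ^ (k - 1) * P := by
      rw [one_div, inv_pow, inv_pow, hkk]
      field_simp
    rw [e] at hlow
    linarith
  -- the slope of the upper function
  have hder := (up_deriv hd k).tendsto_slope_zero_right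
  have hU0 : (m1 d 0 - 0) * m1 d 0 ^ (k - 1) = qc d k 0 := by
    rw [m1_zero, hz, sub_zero, ← pow_succ']
    congr 1
    omega
  have hge : (qc d k P - qc d k 0) / P ≤ -(1 / d : ℝ) ^ (k - 1) := by
    refine ge_of_tendsto hder ?_
    filter_upwards [Ioo_mem_nhdsGT hP0] with t ht
    rw [zero_add, hU0, smul_eq_mul, inv_mul_eq_div]
    have ht0 : 0 < t := ht.1
    have htP : t < P := ht.2
    have h32 : 32 * t ^ 2 ≤ 1 / 32 := by nlinarith
    have h32' : 0 ≤ t ^ 2 := sq_nonneg t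
    have hden : 0 < (d : ℝ) * (1 - 32 * t ^ 2) := mul_pos hd0 (by linarith)
    have hm0 : 0 < m1 d t := by
      unfold m1
      exact div_pos (by linarith) hden
    have hm1 : m1 d t ≤ 3 / 4 := by
      unfold m1
      rw [div_le_iff₀ hden]
      nlinarith
    have hm2 : t ≤ m1 d t / 2 := by
      have h1 : 1 / (d : ℝ) ≤ m1 d t := by
        unfold m1
        rw [div_le_div_iff₀ hd0 hden]
        nlinarith
      have h2 : t * (2 * d) ≤ 1 := by nlinarith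
      have h3 : 2 * t ≤ 1 / d := by
        rw [le_div_iff₀ hd0]
        linarith
      linarith
    have hm3 : 1 < d * (m1 d t * (1 - 32 * t ^ 2)) := by
      have e : (d : ℝ) * (m1 d t * (1 - 32 * t ^ 2)) = 1 + t ^ 2 := by
        have hne : (1 - 32 * t ^ 2) ≠ 0 := by linarith
        have hne2 : (d : ℝ) * (1 - 32 * t ^ 2) ≠ 0 := hden.ne'
        unfold m1
        rw [div_mul_eq_mul_div, mul_div_assoc', div_eq_iff hne2]
        ring
      rw [e]
      have : 0 < t ^ 2 := by positivity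
      linarith
    have hup := qc_le (d := d) (k := k) hk ht0.le (by linarith) hm0 hm1 hm2 hm3
    have hcon : qc d k 0 + (qc d k P - qc d k 0) / P * t ≤ qc d k t := by
      have ha : 0 ≤ 1 - t / P := by
        rw [sub_nonneg, div_le_one hP0]
        exact htP.le
      have hb : 0 ≤ t / P := by positivity
      have h1 := hc.2 (⟨le_rfl, h0.le⟩ : (0 : ℝ) ∈ Set.Icc 0 δ)
        (⟨hP0.le, hPδ⟩ : P ∈ Set.Icc 0 δ) ha hb (by ring)
      simp only [smul_eq_mul, mul_zero, zero_add] at h1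
      have e1 : t / P * P = t := div_mul_cancel₀ t hP0.ne'
      rw [e1] at h1
      have e2 : (1 - t / P) * qc d k 0 + t / P * qc d k P =
          qc d k 0 + (qc d k P - qc d k 0) / P * t := by
        field_simp
        ring
      linarith
    rw [le_div_iff₀ ht0]
    linarith
  linarith

end Pool.Agent.E7c0
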